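import Pool.Agent.H856R2.Form

set_option autoImplicit false

namespace Pool.Agent.H856R2
open Matrix Finset

variable {V B : Type*} [Fintype V] [DecidableEq V] [Fintype B] [DecidableEq B]

/-- `u = e_x - e_s`. -/
def du (x s : V) : V → ℝ := Pi.single x 1 - Pi.single s 1

/-- column `y` of the incidence matrix, as a real vector. -/
def cl (n : V → B → ℕ) (y : B) : V → ℝ := fun i => (n i y : ℝ)

/-- the data at a locally optimal design. -/
structure Ctx (V B : Type*) [Fintype V] [DecidableEq V] [Fintype B] [DecidableEq B] where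
  n : V → B → ℕ
  k : ℕ
  r : ℕ
  P : Matrix V V ℝ
  col : ∀ y, ∑ i, n i y = k
  row : ∀ x, ∑ y, n x y = r
  symm : ∀ i j, P i j = P j i
  psd : ∀ f : V → ℝ, 0 ≤ f ⬝ᵥ P *ᵥ f
  P1 : ∀ i, ∑ j, P i j = 0
  PNN : ∀ i j, ∑ l, P i l * (∑ y, (n l y : ℝ) * n j y)
    = k * (r * P i j - (if i = j then 1 else 0) + 1 / (Fintype.card V : ℝ))
  SW : ∀ x s y t, 1 ≤ n x y → 1 ≤ n s t →
    2 * (k : ℝ) * Matrix.toBilin' (P * P) (du x s) (cl n y - cl n t - du x s)
      ≤ Phi (Matrix.toBilin' P) (Matrix.toBilin' (P * P)) (du x s) (cl n y - cl n t - du x s)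

namespace Ctx
variable (c : Ctx V B)

/-- the form of `P` -/
noncomputable def p : LinearMap.BilinForm ℝ (V → ℝ) := Matrix.toBilin' c.P
/-- the form of `P * P` -/
noncomputable def q : LinearMap.BilinForm ℝ (V → ℝ) := Matrix.toBilin' (c.P * c.P)

lemma Pt : c.Pᵀ = c.P := by
  ext i j; rw [Matrix.transpose_apply]; exact c.symm j i

lemma p_def (f g : V → ℝ) : c.p f g = f ⬝ᵥ c.P *ᵥ g := by
  unfold p; rw [Matrix.toBilin'_apply']

lemma q_def (f g : V → ℝ) : c.q f g = (c.P *ᵥ f) ⬝ᵥ (c.P *ᵥ g) := by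
  unfold q; rw [Matrix.toBilin'_apply', ← Matrix.mulVec_mulVec, Matrix.dotProduct_mulVec,
    ← Matrix.mulVec_transpose, c.Pt]

lemma ps (f g : V → ℝ) : c.p f g = c.p g f := by
  rw [p_def, p_def, Matrix.dotProduct_mulVec, ← Matrix.mulVec_transpose, c.Pt, dotProduct_comm]

lemma qs (f g : V → ℝ) : c.q f g = c.q g f := by
  rw [q_def, q_def, dotProduct_comm]

lemma pp (f : V → ℝ) : 0 ≤ c.p f f := by rw [p_def]; exact c.psd f

lemma qp (f : V → ℝ) : 0 ≤ c.q f f := by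
  rw [q_def]; exact Finset.sum_nonneg fun i _ => mul_self_nonneg _

lemma q_eq (f g : V → ℝ) : c.q f g = f ⬝ᵥ c.P *ᵥ (c.P *ᵥ g) := by
  unfold q; rw [Matrix.toBilin'_apply', ← Matrix.mulVec_mulVec]

/-- `λ_xj` -/
noncomputable def lam (i j : V) : ℝ := ∑ y, (c.n i y : ℝ) * c.n j y

lemma colR (y : B) : ∑ i, (c.n i y : ℝ) = c.k := by exact_mod_cast c.col y
lemma rowR (x : V) : ∑ y, (c.n x y : ℝ) = c.r := by exact_mod_cast c.row x

/-- `NNᵀ g` as a combination of columns. -/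
lemma sum_cl (x : V) : ∑ y, (c.n x y : ℝ) • cl c.n y = fun j => c.lam j x := by
  ext j
  simp only [Finset.sum_apply, Pi.smul_apply, smul_eq_mul, cl, lam]
  exact Finset.sum_congr rfl fun y _ => mul_comm _ _

/-- `P NNᵀ e_x = k (r P e_x - e_x + 1/v)`. -/
lemma P_lam (x : V) : c.P *ᵥ (∑ y, (c.n x y : ℝ) • cl c.n y)
    = (c.k : ℝ) • ((c.r : ℝ) • (c.P *ᵥ Pi.single x 1) - Pi.single x 1
      + fun _ => 1 / (Fintype.card V : ℝ)) := by
  rw [sum_cl]
  ext i
  have h := c.PNN i x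
  simp only [Matrix.mulVec, dotProduct, lam, Pi.smul_apply, Pi.add_apply, Pi.sub_apply,
    smul_eq_mul] at h ⊢
  rw [h]
  simp [Pi.single_apply]

lemma P_one (a : ℝ) : c.P *ᵥ (fun _ => a) = 0 := by
  ext i
  simp only [Matrix.mulVec, dotProduct, Pi.zero_apply]
  rw [← Finset.sum_mul, c.P1, zero_mul]

/-- `p(f, NNᵀ e_x)` -/
lemma p_lam (f : V → ℝ) (x : V) : c.p f (∑ y, (c.n x y : ℝ) • cl c.n y)
    = c.k * (c.r * c.p f (Pi.single x 1) - f x + (∑ i, f i) / (Fintype.card V : ℝ)) := by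
  rw [p_def, P_lam, dotProduct_smul, dotProduct_add, dotProduct_sub, dotProduct_smul, ← p_def]
  simp only [smul_eq_mul, dotProduct_single, mul_one]
  congr 2
  simp only [dotProduct, Finset.sum_div, mul_one_div]

lemma q_lam (f : V → ℝ) (x : V) : c.q f (∑ y, (c.n x y : ℝ) • cl c.n y)
    = c.k * (c.r * c.q f (Pi.single x 1) - c.p f (Pi.single x 1)) := by
  rw [q_eq, P_lam, Matrix.mulVec_smul, Matrix.mulVec_add, Matrix.mulVec_sub, P_one,
    Matrix.mulVec_smul, dotProduct_smul, dotProduct_add, dotProduct_sub, dotProduct_smul, ← q_eq,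
    ← p_def]
  simp

end Ctx
end Pool.Agent.H856R2
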