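import Mathlib

set_option autoImplicit false

namespace Pool.Agent.H856R2

/-! General facts about a positive semidefinite symmetric real bilinear form. -/

section Form
variable {E : Type*} [AddCommGroup E] [Module ℝ E]

lemma form_sub (s : LinearMap.BilinForm ℝ E) (hs : ∀ x y, s x y = s y x) (f g : E) :
    s (f - g) (f - g) = s f f - 2 * s f g + s g g := by
  simp only [map_sub, LinearMap.sub_apply]
  rw [hs g f]; ring

lemma form_cs (s : LinearMap.BilinForm ℝ E) (hp : ∀ x, 0 ≤ s x x) (hs : ∀ x y, s x y = s y x)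
    (f g : E) : (s f g) ^ 2 ≤ s f f * s g g := by
  have := s.apply_mul_apply_le_of_forall_zero_le hp f g
  rw [hs g f] at this
  nlinarith [this]

lemma form_sub_le (s : LinearMap.BilinForm ℝ E) (hp : ∀ x, 0 ≤ s x x)
    (hs : ∀ x y, s x y = s y x) (θ : ℝ) (hθ : 0 < θ) (f g : E) :
    s (f - g) (f - g) ≤ (1 + θ) * s f f + (1 + 1 / θ) * s g g := by
  have h := hp (θ • f + g)
  simp only [map_add, map_smul, LinearMap.add_apply, LinearMap.smul_apply, smul_eq_mul] at h
  rw [hs g f] at h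
  rw [form_sub s hs]
  have h2 : 0 ≤ (1 / θ) * (θ * (θ * s f f + s f g) + (θ * s f g + s g g)) := by
    apply mul_nonneg (by positivity)
    linarith
  have h3 : (1 / θ) * (θ * (θ * s f f + s f g) + (θ * s f g + s g g))
      = θ * s f f + 2 * s f g + (1 / θ) * s g g := by
    field_simp; ring
  rw [h3] at h2
  linarith

/-- weighted convexity -/
lemma form_sum_le {ι : Type*} (t : Finset ι) (s : LinearMap.BilinForm ℝ E) (hp : ∀ x, 0 ≤ s x x)
    (hs : ∀ x y, s x y = s y x) (w : ι → ℝ) (hw : ∀ i ∈ t, 0 ≤ w i) (f : ι → E) :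
    s (∑ i ∈ t, w i • f i) (∑ i ∈ t, w i • f i) ≤ (∑ i ∈ t, w i) * ∑ i ∈ t, w i * s (f i) (f i) := by
  have h1 : s (∑ i ∈ t, w i • f i) (∑ i ∈ t, w i • f i)
      = ∑ i ∈ t, ∑ j ∈ t, w i * w j * s (f i) (f j) := by
    simp only [map_sum, LinearMap.sum_apply, map_smul, LinearMap.smul_apply, smul_eq_mul,
      Finset.mul_sum]
    rw [Finset.sum_comm]
    refine Finset.sum_congr rfl fun i _ => Finset.sum_congr rfl fun j _ => by ring
  have h2 : (∑ i ∈ t, w i) * ∑ i ∈ t, w i * s (f i) (f i)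
      = ∑ i ∈ t, ∑ j ∈ t, w i * w j * ((s (f i) (f i) + s (f j) (f j)) / 2) := by
    have e : ∀ i ∈ t, ∀ j ∈ t, w i * w j * ((s (f i) (f i) + s (f j) (f j)) / 2)
        = (w j * (w i * s (f i) (f i)) + w i * (w j * s (f j) (f j))) / 2 := by
      intro i _ j _; ring
    rw [Finset.sum_congr rfl fun i hi => Finset.sum_congr rfl fun j hj => e i hi j hj]
    simp only [add_div, Finset.sum_add_distrib, ← Finset.sum_div, ← Finset.mul_sum,
      ← Finset.sum_mul]
    ring
  rw [h1, h2]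
  refine Finset.sum_le_sum fun i hi => Finset.sum_le_sum fun j hj => ?_
  have hij := hp (f i - f j)
  rw [form_sub s hs] at hij
  apply mul_le_mul_of_nonneg_left _ (mul_nonneg (hw i hi) (hw j hj))
  linarith

/-- the cross term `2 p(u,z) q(u,z)` -/
lemma form_cross (p q : LinearMap.BilinForm ℝ E) (hp : ∀ x, 0 ≤ p x x)
    (hps : ∀ x y, p x y = p y x) (hq : ∀ x, 0 ≤ q x x)
    (hqs : ∀ x y, q x y = q y x) (θ : ℝ) (hθ : 0 < θ) (u z : E) :
    -(2 * (p u z * q u z)) ≤ θ * (q u u * p z z) + (1 / θ) * (p u u * q z z) := by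
  have h1 := form_cs p hp hps u z
  have h2 := form_cs q hq hqs u z
  set a := θ * (q u u * p z z)
  set b := (1 / θ) * (p u u * q z z)
  have ha : 0 ≤ a := mul_nonneg hθ.le (mul_nonneg (hq u) (hp z))
  have hb : 0 ≤ b := mul_nonneg (by positivity) (mul_nonneg (hp u) (hq z))
  have hab : a * b = (p u u * p z z) * (q u u * q z z) := by
    simp only [a, b]; field_simp
  have h3 : (p u z * q u z) ^ 2 ≤ a * b := by
    rw [hab, mul_pow]
    exact mul_le_mul h1 h2 (sq_nonneg _) (mul_nonneg (hp u) (hp z))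
  have h4 : (-(2 * (p u z * q u z))) ^ 2 ≤ (a + b) ^ 2 := by nlinarith [sq_nonneg (a - b)]
  exact (le_abs_self _).trans (abs_le_of_sq_le_sq h4 (by linarith))

/-- The quadratic `Φ(u,z)` of the trace change. -/
noncomputable def Phi (p q : LinearMap.BilinForm ℝ E) (u z : E) : ℝ :=
  p u u * q z z + q u u * p z z - 2 * (p u z * q u z)

lemma Phi_shift (p q : LinearMap.BilinForm ℝ E) (hps : ∀ x y, p x y = p y x)
    (hqs : ∀ x y, q x y = q y x) (τ : ℝ) (u z : E) :
    Phi p q u (z + τ • u) = Phi p q u z := by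
  unfold Phi
  simp only [map_add, map_smul, LinearMap.add_apply, LinearMap.smul_apply, smul_eq_mul]
  rw [hps z u, hqs z u]
  ring

lemma Phi_le (p q : LinearMap.BilinForm ℝ E) (hp : ∀ x, 0 ≤ p x x)
    (hps : ∀ x y, p x y = p y x) (hq : ∀ x, 0 ≤ q x x)
    (hqs : ∀ x y, q x y = q y x) (θ : ℝ) (hθ : 0 < θ) (u z : E) :
    Phi p q u z ≤ (1 + θ) * (q u u * p z z) + (1 + 1 / θ) * (p u u * q z z) := by
  have := form_cross p q hp hps hq hqs θ hθ u z
  unfold Phi
  linarith

end Form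

end Pool.Agent.H856R2
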