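import Pool.Agent.H856R2.StageSix

set_option autoImplicit false
set_option linter.unusedSectionVars false

namespace Pool.Agent.H856R2
open Matrix Finset

variable {V B : Type} [Fintype V] [DecidableEq V] [Fintype B] [DecidableEq B]

/-- the matrix `C + J/v` of a design. -/
noncomputable def MM (N : Matrix V B ℕ) (k r : ℕ) : Matrix V V ℝ :=
  (r : ℝ) • (1 : Matrix V V ℝ)
    - (1 / (k : ℝ)) • (N.map (Nat.cast : ℕ → ℝ) * (N.map (Nat.cast : ℕ → ℝ)).transpose)
    + (1 / (Fintype.card V : ℝ)) • Matrix.of (fun _ _ => (1 : ℝ))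

/-- margins -/
def Mar (N : Matrix V B ℕ) (k r : ℕ) : Prop := (∀ j, ∑ i, N i j = k) ∧ (∀ i, ∑ j, N i j = r)

lemma MM_apply (N : Matrix V B ℕ) (k r : ℕ) (i j : V) : MM N k r i j
    = r * (if i = j then 1 else 0) - (1 / (k : ℝ)) * (∑ y, (N i y : ℝ) * N j y)
      + 1 / (Fintype.card V : ℝ) := by
  unfold MM
  simp [Matrix.add_apply, Matrix.sub_apply, Matrix.smul_apply, Matrix.mul_apply, Matrix.one_apply]

lemma MM_symm (N : Matrix V B ℕ) (k r : ℕ) : (MM N k r)ᵀ = MM N k r := by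
  ext i j
  rw [Matrix.transpose_apply, MM_apply, MM_apply]
  simp only [eq_comm (a := j) (b := i), mul_comm ((N j _ : ℕ) : ℝ)]

lemma lam_sum (N : Matrix V B ℕ) (k r : ℕ) (h : Mar N k r) (i : V) :
    ∑ j, ∑ y, (N i y : ℝ) * N j y = k * r := by
  rw [Finset.sum_comm]
  have h1 : ∀ y, ∑ j, (N j y : ℝ) = k := fun y => by exact_mod_cast h.1 y
  have h2 : ∑ y, (N i y : ℝ) = r := by exact_mod_cast h.2 i
  simp only [← Finset.mul_sum, h1, ← Finset.sum_mul, h2]
  ring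

lemma MM_one (N : Matrix V B ℕ) (k r : ℕ) (h : Mar N k r) (hk : 0 < k) [Nonempty V] :
    MM N k r *ᵥ (fun _ => 1) = fun _ => 1 := by
  ext i
  simp only [Matrix.mulVec, dotProduct, mul_one, MM_apply, Finset.sum_add_distrib,
    Finset.sum_sub_distrib, ← Finset.mul_sum, lam_sum N k r h, Finset.sum_ite_eq,
    Finset.mem_univ, if_true, Finset.sum_const, Finset.card_univ, nsmul_eq_mul]
  have hv : (Fintype.card V : ℝ) ≠ 0 := by
    have := Fintype.card_pos (α := V); positivity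
  have hk' : (k : ℝ) ≠ 0 := by positivity
  field_simp
  ring

/-- the quadratic form of `M`. -/
lemma MM_form (N : Matrix V B ℕ) (k r : ℕ) (f : V → ℝ) :
    f ⬝ᵥ MM N k r *ᵥ f = r * ∑ i, f i ^ 2 - (1 / (k : ℝ)) * (∑ y, (∑ i, (N i y : ℝ) * f i) ^ 2)
      + 1 / (Fintype.card V : ℝ) * (∑ i, f i) ^ 2 := by
  have e1 : ∀ y, (∑ i, (N i y : ℝ) * f i) ^ 2
      = ∑ i, ∑ j, (N i y : ℝ) * N j y * (f i * f j) := by
    intro y
    rw [pow_two, Finset.sum_mul_sum]
    refine Finset.sum_congr rfl fun i _ => Finset.sum_congr rfl fun j _ => by ring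
  have e2 : (∑ i, f i) ^ 2 = ∑ i, ∑ j, f i * f j := by
    rw [pow_two, Finset.sum_mul_sum]
  have e3 : ∑ y, (∑ i, (N i y : ℝ) * f i) ^ 2
      = ∑ i, ∑ j, (∑ y, (N i y : ℝ) * N j y) * (f i * f j) := by
    simp only [e1]
    rw [Finset.sum_comm]
    refine Finset.sum_congr rfl fun i _ => ?_
    rw [Finset.sum_comm]
    refine Finset.sum_congr rfl fun j _ => ?_
    rw [Finset.sum_mul]
  rw [e3, e2]
  obtain ⟨L, hL⟩ : ∃ L : V → V → ℝ, ∀ i j, ∑ y, (N i y : ℝ) * N j y = L i j :=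
    ⟨_, fun _ _ => rfl⟩
  simp only [Matrix.mulVec, dotProduct, MM_apply, hL, Finset.mul_sum]
  rw [← Finset.sum_sub_distrib, ← Finset.sum_add_distrib]
  refine Finset.sum_congr rfl fun i _ => ?_
  have e4 : (r : ℝ) * f i ^ 2 = ∑ j, (r : ℝ) * (if i = j then 1 else 0) * (f i * f j) := by
    simp [mul_ite, ite_mul, Finset.sum_ite_eq, pow_two]
  rw [e4, ← Finset.sum_sub_distrib, ← Finset.sum_add_distrib]
  refine Finset.sum_congr rfl fun j _ => by ring

lemma MM_psd (N : Matrix V B ℕ) (k r : ℕ) (h : Mar N k r) (hk : 0 < k) (f : V → ℝ) :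
    0 ≤ f ⬝ᵥ MM N k r *ᵥ f := by
  rw [MM_form]
  have hk' : (0 : ℝ) < k := by exact_mod_cast hk
  have h1 : ∀ y, (∑ i, (N i y : ℝ) * f i) ^ 2 ≤ k * ∑ i, (N i y : ℝ) * f i ^ 2 := by
    intro y
    have := wcs Finset.univ (fun i => (N i y : ℝ)) f (fun i _ => Nat.cast_nonneg _)
    have e : ∑ i, (N i y : ℝ) = k := by exact_mod_cast h.1 y
    rwa [e] at this
  have h2 : ∑ y, (∑ i, (N i y : ℝ) * f i) ^ 2 ≤ k * (r * ∑ i, f i ^ 2) := by
    refine (Finset.sum_le_sum fun y _ => h1 y).trans (le_of_eq ?_)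
    rw [← Finset.mul_sum]
    congr 1
    rw [Finset.sum_comm, Finset.mul_sum]
    refine Finset.sum_congr rfl fun i _ => ?_
    rw [← Finset.sum_mul]
    congr 1
    exact_mod_cast h.2 i
  have h3 : (1 / (k : ℝ)) * (∑ y, (∑ i, (N i y : ℝ) * f i) ^ 2) ≤ r * ∑ i, f i ^ 2 := by
    rw [one_div, inv_mul_le_iff₀ hk']; exact h2
  have h4 : 0 ≤ 1 / (Fintype.card V : ℝ) * (∑ i, f i) ^ 2 := by positivity
  linarith

/-- `P = M⁻¹ - J/v` -/
noncomputable def PP (N : Matrix V B ℕ) (k r : ℕ) : Matrix V V ℝ :=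
  (MM N k r)⁻¹ - (1 / (Fintype.card V : ℝ)) • Matrix.of (fun _ _ => (1 : ℝ))

section
variable (N : Matrix V B ℕ) (k r : ℕ)

lemma W_symm : ((MM N k r)⁻¹)ᵀ = (MM N k r)⁻¹ := by
  rw [Matrix.transpose_nonsing_inv, MM_symm]

lemma W_mul (hd : (MM N k r).det ≠ 0) : (MM N k r)⁻¹ * MM N k r = 1 :=
  Matrix.nonsing_inv_mul _ (isUnit_iff_ne_zero.2 hd)

lemma mul_W (hd : (MM N k r).det ≠ 0) : MM N k r * (MM N k r)⁻¹ = 1 :=
  Matrix.mul_nonsing_inv _ (isUnit_iff_ne_zero.2 hd)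

lemma W_one (h : Mar N k r) (hk : 0 < k) [Nonempty V] (hd : (MM N k r).det ≠ 0) :
    (MM N k r)⁻¹ *ᵥ (fun _ => 1) = fun _ => 1 := by
  have h1 := MM_one N k r h hk
  have h2 : (MM N k r)⁻¹ *ᵥ (MM N k r *ᵥ (fun _ => 1)) = (fun _ => 1) := by
    rw [Matrix.mulVec_mulVec, W_mul N k r hd, Matrix.one_mulVec]
  rwa [h1] at h2

lemma J_mulVec (f : V → ℝ) : (Matrix.of (fun (_ _ : V) => (1 : ℝ))) *ᵥ f = fun _ => ∑ i, f i := by
  ext i; simp [Matrix.mulVec, dotProduct]

lemma PP_mulVec (f : V → ℝ) : PP N k r *ᵥ f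
    = (MM N k r)⁻¹ *ᵥ f - fun _ => (∑ i, f i) / (Fintype.card V : ℝ) := by
  unfold PP
  rw [Matrix.sub_mulVec, Matrix.smul_mulVec, J_mulVec]
  ext i; simp [div_eq_inv_mul]

lemma PP_symm : (PP N k r)ᵀ = PP N k r := by
  unfold PP
  rw [Matrix.transpose_sub, W_symm, Matrix.transpose_smul]
  congr 2

lemma PP_one (h : Mar N k r) (hk : 0 < k) [Nonempty V] (hd : (MM N k r).det ≠ 0) (i : V) :
    ∑ j, PP N k r i j = 0 := by
  have h1 : (PP N k r *ᵥ (fun _ => 1)) i = 0 := by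
    rw [PP_mulVec, W_one N k r h hk hd]
    have hv : (Fintype.card V : ℝ) ≠ 0 := by
      have := Fintype.card_pos (α := V); positivity
    simp [hv]
  simpa [Matrix.mulVec, dotProduct] using h1

lemma PP_psd (h : Mar N k r) (hk : 0 < k) [Nonempty V] (hd : (MM N k r).det ≠ 0) (f : V → ℝ) :
    0 ≤ f ⬝ᵥ PP N k r *ᵥ f := by
  set g := PP N k r *ᵥ f with hg
  have hv : (Fintype.card V : ℝ) ≠ 0 := by
    have := Fintype.card_pos (α := V); positivity
  have h1 : MM N k r *ᵥ g = f - fun _ => (∑ i, f i) / (Fintype.card V : ℝ) := by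
    rw [hg, PP_mulVec, Matrix.mulVec_sub, Matrix.mulVec_mulVec, mul_W N k r hd,
      Matrix.one_mulVec]
    congr 1
    have e : (fun _ : V => (∑ i, f i) / (Fintype.card V : ℝ))
        = ((∑ i, f i) / (Fintype.card V : ℝ)) • (fun _ : V => (1 : ℝ)) := by
      ext i; simp
    rw [e, Matrix.mulVec_smul, MM_one N k r h hk]
  have h2 : ∑ i, g i = 0 := by
    have e : ∑ i, g i = (fun _ => 1) ⬝ᵥ (PP N k r *ᵥ f) := by rw [← hg]; simp [dotProduct]
    rw [e, Matrix.dotProduct_mulVec, ← Matrix.mulVec_transpose, PP_symm]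
    have e2 : PP N k r *ᵥ (fun _ => 1) = 0 := by
      ext i
      have := PP_one N k r h hk hd i
      simpa [Matrix.mulVec, dotProduct] using this
    rw [e2, zero_dotProduct]
  have h3 := MM_psd N k r h hk g
  rw [h1, dotProduct_sub] at h3
  have e3 : g ⬝ᵥ (fun _ => (∑ i, f i) / (Fintype.card V : ℝ)) = 0 := by
    simp only [dotProduct, ← Finset.sum_mul, h2, zero_mul]
  rw [e3, sub_zero, dotProduct_comm] at h3
  exact h3

lemma PP_lam (h : Mar N k r) (hk : 0 < k) [Nonempty V] (hd : (MM N k r).det ≠ 0) (i j : V) :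
    ∑ l, PP N k r i l * (∑ y, (N l y : ℝ) * N j y)
    = k * (r * PP N k r i j - (if i = j then 1 else 0) + 1 / (Fintype.card V : ℝ)) := by
  have hk' : (k : ℝ) ≠ 0 := by positivity
  have hv : (Fintype.card V : ℝ) ≠ 0 := by
    have := Fintype.card_pos (α := V); positivity
  have e1 : ∀ l, (∑ y, (N l y : ℝ) * N j y)
      = k * (r * (if l = j then 1 else 0) + 1 / (Fintype.card V : ℝ) - MM N k r l j) := by
    intro l
    rw [MM_apply]
    field_simp
    ring
  -- `P M = 1 - J/v`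
  have e2 : ∑ l, PP N k r i l * MM N k r l j
      = (if i = j then 1 else 0) - 1 / (Fintype.card V : ℝ) := by
    have h1 : (PP N k r * MM N k r) i j = (if i = j then 1 else 0) - 1 / (Fintype.card V : ℝ) := by
      unfold PP
      rw [Matrix.sub_mul, W_mul N k r hd, Matrix.sub_apply, Matrix.one_apply, Matrix.smul_mul,
        Matrix.smul_apply, Matrix.mul_apply]
      have h2 : ∑ l, MM N k r l j = 1 := by
        have h3 := congrFun (MM_one N k r h hk) j
        rw [← MM_symm] at h3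
        simpa [Matrix.mulVec, dotProduct] using h3
      simp [h2]
    rw [← h1, Matrix.mul_apply]
  simp only [e1]
  have e3 : ∀ l, PP N k r i l * ((k : ℝ) * (r * (if l = j then 1 else 0)
      + 1 / (Fintype.card V : ℝ) - MM N k r l j))
      = k * (r * (if l = j then PP N k r i l else 0) + 1 / (Fintype.card V : ℝ) * PP N k r i l
        - PP N k r i l * MM N k r l j) := by
    intro l; split_ifs <;> ring
  simp only [e3, ← Finset.mul_sum, Finset.sum_add_distrib, Finset.sum_sub_distrib, e2,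
    PP_one N k r h hk hd, Finset.sum_ite_eq', Finset.mem_univ, if_true]
  ring

end

end Pool.Agent.H856R2
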