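import Pool.Agent.H856R2.MatBasic

set_option autoImplicit false
set_option linter.unusedSectionVars false

namespace Pool.Agent.H856R2
open Matrix Finset

variable {V B : Type} [Fintype V] [DecidableEq V] [Fintype B] [DecidableEq B]

/-- rank two update of the inverse -/
lemma rank2 (M W : Matrix V V ℝ) (h1 : M * W = 1) (hW : Wᵀ = W) (u z : V → ℝ)
    (k a b g K F : ℝ) (hk : k ≠ 0) (ha : a = u ⬝ᵥ W *ᵥ u) (hb : b = z ⬝ᵥ W *ᵥ z)
    (hg : g = u ⬝ᵥ W *ᵥ z) (hK : K = k + g) (hF : F = K ^ 2 - a * b) (hF0 : F ≠ 0) :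
    (M + (1 / k) • (vecMulVec u z + vecMulVec z u)) *
      (W - (1 / F) • (K • (vecMulVec (W *ᵥ u) (W *ᵥ z) + vecMulVec (W *ᵥ z) (W *ᵥ u))
        - b • vecMulVec (W *ᵥ u) (W *ᵥ u) - a • vecMulVec (W *ᵥ z) (W *ᵥ z))) = 1 := by
  have eW : ∀ f : V → ℝ, f ᵥ* W = W *ᵥ f := by
    intro f; rw [← Matrix.mulVec_transpose, hW]
  have hMv : ∀ f q : V → ℝ, M * vecMulVec (W *ᵥ f) q = vecMulVec f q := by
    intro f q; rw [Matrix.mul_vecMulVec, Matrix.mulVec_mulVec, h1, Matrix.one_mulVec]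
  have hvW : ∀ p q : V → ℝ, vecMulVec p q * W = vecMulVec p (W *ᵥ q) := by
    intro p q; rw [Matrix.vecMulVec_mul, eW]
  have hvv : ∀ p q r s : V → ℝ, vecMulVec p q * vecMulVec r s = (q ⬝ᵥ r) • vecMulVec p s := by
    intro p q r s; rw [Matrix.vecMulVec_mul_vecMulVec]
    ext i j; simp [Matrix.vecMulVec_apply]; ring
  have e3 : z ⬝ᵥ W *ᵥ u = g := by
    rw [hg, Matrix.dotProduct_mulVec, eW, dotProduct_comm]
  simp only [add_mul, mul_sub, Matrix.mul_smul, Matrix.smul_mul, mul_add,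
    hMv, hvW, hvv, h1, ← ha, ← hb, ← hg, e3]
  ext i j
  simp only [Matrix.add_apply, Matrix.sub_apply, Matrix.smul_apply, Matrix.vecMulVec_apply,
    smul_eq_mul]
  set U := W *ᵥ u
  set Z := W *ᵥ z
  have hF' : (k + g) ^ 2 - a * b ≠ 0 := by rw [← hK, ← hF]; exact hF0
  rw [hF, hK]
  field_simp
  ring

lemma E_nonneg (a b K F E quu qzz quz : ℝ) (ha : 0 ≤ a) (hb : 0 ≤ b) (hq1 : 0 ≤ quu)
    (hq2 : 0 ≤ qzz) (hcs : quz ^ 2 ≤ quu * qzz) (hF : F = K ^ 2 - a * b)
    (hE : E = a * qzz + b * quu - 2 * K * quz) (hopt : F ≠ 0 → 0 ≤ E / F) : 0 ≤ E := by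
  rcases lt_or_ge 0 F with h | h
  · have h1 := hopt h.ne'
    by_contra hcon
    push Not at hcon
    have := div_neg_of_neg_of_pos hcon h
    linarith
  · have hK : K ^ 2 ≤ a * b := by rw [hF] at h; linarith
    have h1 : (2 * K * quz) ^ 2 ≤ (a * qzz + b * quu) ^ 2 := by
      have h2 : K ^ 2 * quz ^ 2 ≤ (a * b) * (quu * qzz) :=
        mul_le_mul hK hcs (sq_nonneg _) (mul_nonneg ha hb)
      nlinarith [sq_nonneg (a * qzz - b * quu)]
    have h2 : 0 ≤ a * qzz + b * quu := by positivity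
    have h3 := abs_le_of_sq_le_sq h1 h2
    have h4 := (abs_le.1 h3).2
    rw [hE]; linarith

/-- the interchange of two plots -/
lemma swap_ex (N : Matrix V B ℕ) (x s : V) (hxs : x ≠ s) (y t : B) (hyt : y ≠ t)
    (h1 : 1 ≤ N x y) (h2 : 1 ≤ N s t) :
    ∃ N1 : Matrix V B ℕ, ∀ i C, (N1 i C : ℝ) = N i C - (du x s : V → ℝ) i * (du y t : B → ℝ) C := by
  refine ⟨fun i C => if (i = x ∧ C = y) ∨ (i = s ∧ C = t) then N i C - 1
    else if (i = x ∧ C = t) ∨ (i = s ∧ C = y) then N i C + 1 else N i C, ?_⟩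
  intro i C
  simp only [du_apply]
  by_cases hxi : i = x
  · subst hxi
    by_cases hCB : C = y
    · subst hCB
      simp [hxs, hyt]
      rw [Nat.cast_sub h1]; norm_num
    · by_cases hCB' : C = t
      · subst hCB'
        simp [hxs, hyt.symm]
      · simp [hCB, hCB', hxs]
  · by_cases hxh : i = s
    · subst hxh
      by_cases hCB : C = y
      · subst hCB
        simp [hxs.symm, hyt]
      · by_cases hCB' : C = t
        · subst hCB'
          simp [hxs.symm, hyt.symm]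
          rw [Nat.cast_sub h2]; norm_num
        · simp [hCB, hCB', hxs.symm]
    · simp [hxi, hxh]

lemma sum_du {I : Type} [Fintype I] [DecidableEq I] (x s : I) : ∑ i, (du x s : I → ℝ) i = 0 := by
  simp [du_apply, Finset.sum_sub_distrib]

lemma sum_mul_du {I : Type} [Fintype I] [DecidableEq I] (x s : I) (f : I → ℝ) :
    ∑ i, f i * (du x s : I → ℝ) i = f x - f s := by
  simp [du_apply, mul_sub, Finset.sum_sub_distrib]

lemma swap_Mar (N N1 : Matrix V B ℕ) (k r : ℕ) (h : Mar N k r) (x s : V) (y t : B)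
    (h1 : ∀ i C, (N1 i C : ℝ) = N i C - (du x s : V → ℝ) i * (du y t : B → ℝ) C) :
    Mar N1 k r := by
  constructor
  · intro C
    have e : ∑ i, (N1 i C : ℝ) = k := by
      simp only [h1, Finset.sum_sub_distrib, ← Finset.sum_mul, sum_du, zero_mul, sub_zero]
      exact_mod_cast h.1 C
    exact_mod_cast e
  · intro i
    have e : ∑ C, (N1 i C : ℝ) = r := by
      simp only [h1, Finset.sum_sub_distrib, ← Finset.mul_sum, sum_du, mul_zero, sub_zero]
      exact_mod_cast h.2 i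
    exact_mod_cast e

lemma swap_MM (N N1 : Matrix V B ℕ) (k r : ℕ) (x s : V) (y t : B) (hyt : y ≠ t)
    (h1 : ∀ i C, (N1 i C : ℝ) = N i C - (du x s : V → ℝ) i * (du y t : B → ℝ) C) :
    MM N1 k r = MM N k r + (1 / (k : ℝ)) • (vecMulVec (du x s) (cl N y - cl N t - du x s)
      + vecMulVec (cl N y - cl N t - du x s) (du x s)) := by
  ext i j
  rw [Matrix.add_apply, MM_apply, MM_apply]
  simp only [Matrix.smul_apply, Matrix.add_apply, Matrix.vecMulVec_apply, Pi.sub_apply, cl,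
    smul_eq_mul]
  have e : ∑ C, (N1 i C : ℝ) * N1 j C = ∑ C, (N i C : ℝ) * N j C
      - (du x s : V → ℝ) j * ((N i y : ℝ) - N i t) - (du x s : V → ℝ) i * ((N j y : ℝ) - N j t)
      + 2 * ((du x s : V → ℝ) i * (du x s : V → ℝ) j) := by
    have e1 : ∀ C, (N1 i C : ℝ) * N1 j C = (N i C : ℝ) * N j C
        - (du x s : V → ℝ) j * ((N i C : ℝ) * (du y t : B → ℝ) C)
        - (du x s : V → ℝ) i * ((N j C : ℝ) * (du y t : B → ℝ) C)
        + ((du x s : V → ℝ) i * (du x s : V → ℝ) j) * ((du y t : B → ℝ) C * (du y t : B → ℝ) C) := by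
      intro C; rw [h1, h1]; ring
    simp only [e1, Finset.sum_add_distrib, Finset.sum_sub_distrib, ← Finset.mul_sum, sum_mul_du]
    have e2 : (du y t : B → ℝ) y - (du y t : B → ℝ) t = 2 := by
      simp [du_apply, hyt, hyt.symm]; norm_num
    rw [e2]; ring
  rw [e]; ring

section
variable (N : Matrix V B ℕ) (k r : ℕ)

/-- the swap inequality at an optimal design -/
lemma SW_of_opt (h : Mar N k r) (hk : 0 < k) (hd : (MM N k r).det ≠ 0)
    (hopt : ∀ N1 : Matrix V B ℕ, Mar N1 k r → (MM N1 k r).det ≠ 0 →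
      (MM N k r)⁻¹.trace ≤ (MM N1 k r)⁻¹.trace)
    (x s : V) (y t : B) (h1 : 1 ≤ N x y) (h2 : 1 ≤ N s t) :
    2 * (k : ℝ) * Matrix.toBilin' (PP N k r * PP N k r) (du x s) (cl N y - cl N t - du x s)
      ≤ Phi (Matrix.toBilin' (PP N k r)) (Matrix.toBilin' (PP N k r * PP N k r)) (du x s)
        (cl N y - cl N t - du x s) := by
  have hV : Nonempty V := ⟨x⟩
  have hk' : (k : ℝ) ≠ 0 := by positivity
  rcases eq_or_ne x s with hxs | hxs
  · subst hxs
    have : (du x x : V → ℝ) = 0 := by simp [du]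
    rw [this]; simp [Phi]
  have Pq : ∀ f g : V → ℝ, Matrix.toBilin' (PP N k r * PP N k r) f g
      = (PP N k r *ᵥ f) ⬝ᵥ (PP N k r *ᵥ g) := by
    intro f g
    rw [Matrix.toBilin'_apply', ← Matrix.mulVec_mulVec, Matrix.dotProduct_mulVec,
      ← Matrix.mulVec_transpose, PP_symm]
  have Pp : ∀ f g : V → ℝ, Matrix.toBilin' (PP N k r) f g = f ⬝ᵥ PP N k r *ᵥ g := by
    intro f g; rw [Matrix.toBilin'_apply']
  rcases eq_or_ne y t with hyt | hyt
  · subst hyt
    have e : cl N y - cl N y - du x s = -(du x s : V → ℝ) := by simp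
    rw [e]
    unfold Phi
    simp only [map_neg, LinearMap.neg_apply, neg_neg]
    have : 0 ≤ Matrix.toBilin' (PP N k r * PP N k r) (du x s) (du x s : V → ℝ) := by
      rw [Pq]; exact Finset.sum_nonneg fun i _ => mul_self_nonneg _
    have hk0 : (0 : ℝ) < k := by exact_mod_cast hk
    nlinarith [mul_nonneg hk0.le this]
  obtain ⟨N1, hN1⟩ := swap_ex N x s hxs y t hyt h1 h2
  have hm := swap_Mar N N1 k r h x s y t hN1
  have hM := swap_MM N N1 k r x s y t hyt hN1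
  set u : V → ℝ := du x s with hu
  set z : V → ℝ := cl N y - cl N t - u with hz
  have su : ∑ i, u i = 0 := sum_du x s
  have sz : ∑ i, z i = 0 := by
    rw [hz]
    simp only [Pi.sub_apply, Finset.sum_sub_distrib, su, cl]
    have c1 : ∑ i, (N i y : ℝ) = k := by exact_mod_cast h.1 y
    have c2 : ∑ i, (N i t : ℝ) = k := by exact_mod_cast h.1 t
    rw [c1, c2]; ring
  have ePu : PP N k r *ᵥ u = (MM N k r)⁻¹ *ᵥ u := by
    rw [PP_mulVec, su]; ext i; simp
  have ePz : PP N k r *ᵥ z = (MM N k r)⁻¹ *ᵥ z := by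
    rw [PP_mulVec, sz]; ext i; simp
  set W := (MM N k r)⁻¹ with hW
  set a := u ⬝ᵥ W *ᵥ u with ha
  set b := z ⬝ᵥ W *ᵥ z with hb
  set g := u ⬝ᵥ W *ᵥ z with hg
  set K := (k : ℝ) + g with hK
  set F := K ^ 2 - a * b with hF
  have ha0 : 0 ≤ a := by
    have := PP_psd N k r h hk hd u
    rw [ePu] at this; exact this
  have hb0 : 0 ≤ b := by
    have := PP_psd N k r h hk hd z
    rw [ePz] at this; exact this
  set U := W *ᵥ u with hU
  set Z := W *ᵥ z with hZ
  have hcs : (U ⬝ᵥ Z) ^ 2 ≤ (U ⬝ᵥ U) * (Z ⬝ᵥ Z) := by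
    have := form_cs (eu : LinearMap.BilinForm ℝ (V → ℝ)) eu_nonneg eu_symm U Z
    simpa only [eu_def] using this
  have hUU : 0 ≤ U ⬝ᵥ U := Finset.sum_nonneg fun i _ => mul_self_nonneg _
  have hZZ : 0 ≤ Z ⬝ᵥ Z := Finset.sum_nonneg fun i _ => mul_self_nonneg _
  have hE := E_nonneg a b K F (a * (Z ⬝ᵥ Z) + b * (U ⬝ᵥ U) - 2 * K * (U ⬝ᵥ Z)) (U ⬝ᵥ U) (Z ⬝ᵥ Z)
    (U ⬝ᵥ Z) ha0 hb0 hUU hZZ hcs hF rfl (by
      intro hF0
      have hr2 := rank2 (MM N k r) W (mul_W N k r hd) (W_symm N k r) u z k a b g K F hk' ha hb hg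
        hK hF hF0
      rw [← hM] at hr2
      have hd1 : (MM N1 k r).det ≠ 0 := Matrix.det_ne_zero_of_right_inverse hr2
      have hinv := Matrix.inv_eq_right_inv hr2
      have ho := hopt N1 hm hd1
      rw [hinv] at ho
      simp only [Matrix.trace_sub, Matrix.trace_smul, Matrix.trace_add, Matrix.trace_vecMulVec,
        smul_eq_mul, ← hU, ← hZ] at ho
      rw [dotProduct_comm Z U] at ho
      have e : (a * (Z ⬝ᵥ Z) + b * (U ⬝ᵥ U) - 2 * K * (U ⬝ᵥ Z)) / F
          = -(1 / F * (K * (U ⬝ᵥ Z + U ⬝ᵥ Z) - b * (U ⬝ᵥ U) - a * (Z ⬝ᵥ Z))) := by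
        field_simp; ring
      rw [e]; linarith)
  unfold Phi
  rw [Pq, Pq, Pq, Pp, Pp, Pp, ePu, ePz]
  simp only [← hU, ← hZ, ← ha, ← hb, ← hg]
  rw [hK] at hE
  linarith

/-- the context of an optimal design -/
noncomputable def toCtx (h : Mar N k r) (hk : 0 < k) (hd : (MM N k r).det ≠ 0) [Nonempty V]
    (hopt : ∀ N1 : Matrix V B ℕ, Mar N1 k r → (MM N1 k r).det ≠ 0 →
      (MM N k r)⁻¹.trace ≤ (MM N1 k r)⁻¹.trace) : Ctx V B where
  n := N
  k := k
  r := r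
  P := PP N k r
  col := h.1
  row := h.2
  symm := fun i j => by
    have := congrFun (congrFun (PP_symm N k r) j) i
    rw [Matrix.transpose_apply] at this; exact this
  psd := PP_psd N k r h hk hd
  P1 := PP_one N k r h hk hd
  PNN := PP_lam N k r h hk hd
  SW := SW_of_opt N k r h hk hd hopt

end

/-- an optimal design with `1000 ≤ r`, `2 ≤ k ≤ r ≤ b` is binary -/
theorem opt_binary (N : Matrix V B ℕ) (k r : ℕ) (h : Mar N k r) (hk : 2 ≤ k)
    (hkr : k ≤ r) (hr : 1000 ≤ r) (hb : r ≤ Fintype.card B)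
    (hd : (MM N k r).det ≠ 0)
    (hopt : ∀ N1 : Matrix V B ℕ, Mar N1 k r → (MM N1 k r).det ≠ 0 →
      (MM N k r)⁻¹.trace ≤ (MM N1 k r)⁻¹.trace) (i : V) (j : B) : N i j ≤ 1 := by
  have hV : Nonempty V := ⟨i⟩
  exact (toCtx N k r h (by omega) hd hopt).binary hr hk hkr hb i j

end Pool.Agent.H856R2
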