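import Pool.Agent.H856R2.MatSwap

set_option autoImplicit false
set_option linter.unusedSectionVars false

namespace Pool.Agent.H856R2
open Matrix Finset

variable {V B : Type} [Fintype V] [DecidableEq V] [Fintype B] [DecidableEq B]

lemma Mar_count (N : Matrix V B ℕ) (k r : ℕ) (h : Mar N k r) :
    Fintype.card B * k = Fintype.card V * r := by
  have h1 : ∑ j, ∑ i, N i j = Fintype.card B * k := by
    simp [h.1, Finset.sum_const, Finset.card_univ]
  have h2 : ∑ i, ∑ j, N i j = Fintype.card V * r := by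
    simp [h.2, Finset.sum_const, Finset.card_univ]
  rw [← h1, ← h2, Finset.sum_comm]

lemma Mar_trans (N : Matrix V B ℕ) (k r : ℕ) (h : Mar N k r) : Mar Nᵀ r k :=
  ⟨fun j => by simpa [Matrix.transpose_apply] using h.2 j,
   fun i => by simpa [Matrix.transpose_apply] using h.1 i⟩

/-- all-ones matrix -/
def JJ (I J : Type) : Matrix I J ℝ := Matrix.of (fun _ _ => (1 : ℝ))

lemma trans_inv (N : Matrix V B ℕ) (k r : ℕ) (h : Mar N k r) (hk : 0 < k) (hr : 0 < r)
    [Nonempty V] [Nonempty B] (hd : (MM N k r).det ≠ 0) :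
    (MM Nᵀ r k).det ≠ 0 ∧ (MM Nᵀ r k)⁻¹.trace
      = (r / k : ℝ) * ((MM N k r)⁻¹.trace - 1)
        + ((Fintype.card B : ℝ) - Fintype.card V) / k + 1 := by
  have hk' : (k : ℝ) ≠ 0 := by positivity
  have hr' : (r : ℝ) ≠ 0 := by positivity
  have hv : (Fintype.card V : ℝ) ≠ 0 := by
    have := Fintype.card_pos (α := V); positivity
  have hb : (Fintype.card B : ℝ) ≠ 0 := by
    have := Fintype.card_pos (α := B); positivity
  have hbk : (Fintype.card B : ℝ) * k = Fintype.card V * r := by exact_mod_cast Mar_count N k r h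
  set Nr : Matrix V B ℝ := N.map (Nat.cast : ℕ → ℝ) with hNr
  set P := PP N k r with hP
  set G : Matrix B B ℝ := Nrᵀ * Nr with hG
  set A : Matrix B B ℝ := Nrᵀ * P * Nr with hA
  set v : ℝ := (Fintype.card V : ℝ) with hvd
  set b : ℝ := (Fintype.card B : ℝ) with hbd
  -- `N Nᵀ P = k (r P - 1 + J/v)`
  have hPN : P * (Nr * Nrᵀ) = (k : ℝ) • ((r : ℝ) • P - 1 + (1 / v) • JJ V V) := by
    ext i j
    have := PP_lam N k r h hk hd i j
    rw [Matrix.mul_apply]
    simp only [Matrix.mul_apply, Matrix.transpose_apply, hNr, Matrix.map_apply]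
    rw [hP, this]
    simp [JJ, Matrix.one_apply, ← hP, hvd]
  have hNP : (Nr * Nrᵀ) * P = (k : ℝ) • ((r : ℝ) • P - 1 + (1 / v) • JJ V V) := by
    have h1 := congrArg Matrix.transpose hPN
    simp only [Matrix.transpose_mul, Matrix.transpose_transpose, Matrix.transpose_smul,
      Matrix.transpose_add, Matrix.transpose_sub, Matrix.transpose_one] at h1
    have e1 : Pᵀ = P := PP_symm N k r
    have e2 : (JJ V V)ᵀ = JJ V V := by ext i j; simp [JJ]
    rw [e1, e2] at h1
    exact h1
  have hNJ : Nrᵀ * JJ V V * Nr = ((k : ℝ) ^ 2) • JJ B B := by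
    ext i j
    have c : ∀ y, ∑ i, (N i y : ℝ) = k := fun y => by exact_mod_cast h.1 y
    simp only [Matrix.mul_apply, Matrix.transpose_apply, hNr, Matrix.map_apply, JJ,
      Matrix.of_apply, mul_one, c, Matrix.smul_apply, smul_eq_mul]
    rw [← Finset.mul_sum, c]; ring
  have hGA : G * A = ((k : ℝ) * r) • A - (k : ℝ) • G + ((k : ℝ) ^ 3 / v) • JJ B B := by
    have e : G * A = Nrᵀ * ((Nr * Nrᵀ) * P) * Nr := by
      rw [hG, hA]; simp only [Matrix.mul_assoc]
    rw [e, hNP]
    simp only [Matrix.mul_smul, Matrix.smul_mul, Matrix.mul_add, Matrix.mul_sub, Matrix.add_mul,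
      Matrix.sub_mul, Matrix.mul_one, hNJ, ← hA, ← hG, smul_add, smul_sub, smul_smul]
    congr 2
    field_simp
  have hJN : JJ B B * Nrᵀ = (r : ℝ) • JJ B V := by
    ext i j
    have c : ∑ y, (N j y : ℝ) = r := by exact_mod_cast h.2 j
    simp only [Matrix.mul_apply, Matrix.transpose_apply, hNr, Matrix.map_apply, JJ,
      Matrix.of_apply, one_mul, c, Matrix.smul_apply, smul_eq_mul, mul_one]
  have hJP : JJ B V * P = 0 := by
    ext i j
    simp only [Matrix.mul_apply, JJ, Matrix.of_apply, one_mul, Matrix.zero_apply]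
    have e : ∀ l, P l j = P j l := fun l => by
      have := congrFun (congrFun (PP_symm N k r) j) l
      rw [Matrix.transpose_apply] at this; exact this
    simp only [e]
    exact PP_one N k r h hk hd j
  have hJA : JJ B B * A = 0 := by
    rw [hA, ← Matrix.mul_assoc, ← Matrix.mul_assoc, hJN, Matrix.smul_mul, hJP, smul_zero,
      Matrix.zero_mul]
  have hJJ : JJ B B * JJ B B = b • JJ B B := by
    ext i j
    simp [Matrix.mul_apply, JJ, hbd]
  have hGJ : G * JJ B B = ((r : ℝ) * k) • JJ B B := by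
    rw [hG, Matrix.mul_assoc]
    ext i j
    have c : ∀ i, ∑ y, (N i y : ℝ) = r := fun i => by exact_mod_cast h.2 i
    have c' : ∀ y, ∑ i, (N i y : ℝ) = k := fun y => by exact_mod_cast h.1 y
    simp only [Matrix.mul_apply, Matrix.transpose_apply, hNr, Matrix.map_apply, JJ,
      Matrix.of_apply, mul_one, c, Matrix.smul_apply, smul_eq_mul]
    rw [← Finset.sum_mul, c']; ring
  have hM : MM Nᵀ r k = (k : ℝ) • 1 - (1 / (r : ℝ)) • G + (1 / b) • JJ B B := by
    unfold MM JJ
    rw [hG, hNr]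
    rfl
  set X : Matrix B B ℝ := (1 / (k : ℝ)) • 1 + (1 / (k : ℝ) ^ 2) • A
    + ((1 - 1 / (k : ℝ)) / b) • JJ B B with hX
  have hMX : MM Nᵀ r k * X = 1 := by
    rw [hM, hX]
    simp only [add_mul, sub_mul, mul_add, Matrix.mul_smul, Matrix.smul_mul, Matrix.mul_one,
      Matrix.one_mul, hGA, hJA, hJJ, hGJ]
    ext i j
    simp only [Matrix.add_apply, Matrix.sub_apply, Matrix.smul_apply, smul_eq_mul,
      Matrix.zero_apply]
    have e1 : JJ B B i j = 1 := rfl
    rw [e1]
    have hvv : v = b * k / r := by field_simp; linarith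
    rw [hvv]
    field_simp
    ring
  refine ⟨Matrix.det_ne_zero_of_right_inverse hMX, ?_⟩
  rw [Matrix.inv_eq_right_inv hMX, hX]
  have tA : A.trace = k * (r * P.trace - v + 1) := by
    have e : A.trace = (P * (Nr * Nrᵀ)).trace := by
      rw [hA, Matrix.mul_assoc, Matrix.trace_mul_comm, Matrix.mul_assoc]
    rw [e, hPN]
    simp only [Matrix.trace_smul, Matrix.trace_add, Matrix.trace_sub, Matrix.trace_one,
      smul_eq_mul]
    have e2 : (JJ V V).trace = v := by simp [Matrix.trace, JJ, hvd]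
    rw [e2]; field_simp; rw [hvd]
  have tP : P.trace = (MM N k r)⁻¹.trace - 1 := by
    rw [hP]; unfold PP
    rw [Matrix.trace_sub, Matrix.trace_smul]
    have e2 : (Matrix.of (fun (_ _ : V) => (1 : ℝ))).trace = v := by simp [Matrix.trace, hvd]
    rw [e2]; simp only [smul_eq_mul]; field_simp; rw [hvd]; ring
  simp only [Matrix.trace_smul, Matrix.trace_add, Matrix.trace_one, smul_eq_mul, tA, tP]
  have e3 : (JJ B B).trace = b := by simp [Matrix.trace, JJ, hbd]
  rw [e3]
  field_simp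
  ring

lemma entry_le_row (N : Matrix V B ℕ) (k r : ℕ) (h : Mar N k r) (i : V) (j : B) : N i j ≤ r := by
  rw [← h.2 i]
  exact Finset.single_le_sum (f := fun j => N i j) (fun _ _ => Nat.zero_le _) (Finset.mem_univ j)

lemma entry_le_col (N : Matrix V B ℕ) (k r : ℕ) (h : Mar N k r) (i : V) (j : B) : N i j ≤ k := by
  rw [← h.1 j]
  exact Finset.single_le_sum (f := fun i => N i j) (fun _ _ => Nat.zero_le _) (Finset.mem_univ i)

/-- an optimal design is binary when `max (r, k) ≥ 1000`. -/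
theorem opt_binary' (N : Matrix V B ℕ) (k r : ℕ) (h : Mar N k r)
    (hkv : k ≤ Fintype.card V) (hbig : 1000 ≤ r ∨ 1000 ≤ k)
    (hd : (MM N k r).det ≠ 0)
    (hopt : ∀ N1 : Matrix V B ℕ, Mar N1 k r → (MM N1 k r).det ≠ 0 →
      (MM N k r)⁻¹.trace ≤ (MM N1 k r)⁻¹.trace) (i : V) (j : B) : N i j ≤ 1 := by
  have hV : Nonempty V := ⟨i⟩
  have hB : Nonempty B := ⟨j⟩
  have e1 := entry_le_row N k r h i j
  have e2 := entry_le_col N k r h i j
  rcases Nat.lt_or_ge k 2 with hk | hk
  · omega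
  rcases Nat.lt_or_ge r 2 with hr | hr
  · omega
  have hcount := Mar_count N k r h
  rcases le_total k r with hkr | hkr
  · have hb : r ≤ Fintype.card B := by
      by_contra hcon
      push Not at hcon
      nlinarith
    exact opt_binary N k r h hk hkr (by omega) hb hd hopt i j
  · -- transposed
    obtain ⟨hdT, htT⟩ := trans_inv N k r h (by omega) (by omega) hd
    have hT := Mar_trans N k r h
    have := opt_binary Nᵀ r k hT hr hkr (by omega) hkv hdT (by
      intro N1 h1 hd1
      obtain ⟨hd2, ht2⟩ := trans_inv N1 r k h1 (by omega) (by omega) hd1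
      have ho := hopt N1ᵀ (Mar_trans N1 r k h1) hd2
      obtain ⟨-, ht3⟩ := trans_inv Nᵀ r k hT (by omega) (by omega) hdT
      rw [Matrix.transpose_transpose] at ht3
      rw [ht3, ht2] at ho
      have hkr' : (0 : ℝ) < (k : ℝ) / r := by
        have : (0 : ℝ) < k := by exact_mod_cast (by omega : 0 < k)
        have : (0 : ℝ) < r := by exact_mod_cast (by omega : 0 < r)
        positivity
      have ho2 : (k : ℝ) / r * (MM Nᵀ r k)⁻¹.trace ≤ (k : ℝ) / r * (MM N1 r k)⁻¹.trace := by
        linarith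
      exact le_of_mul_le_mul_left ho2 hkr') j i
    rwa [Matrix.transpose_apply] at this

/-- Main theorem, general form. -/
theorem main_general (N : Matrix V B ℕ) (k r : ℕ) (h : Mar N k r)
    (hkv : k ≤ Fintype.card V) (hbig : 1000 ≤ r ∨ 1000 ≤ k)
    (hd : (MM N k r).det ≠ 0) (hnb : ∃ i j, 2 ≤ N i j) :
    ∃ M : Matrix V B ℕ, Mar M k r ∧ (∀ i j, M i j ≤ 1) ∧ (MM M k r).det ≠ 0 ∧
      (MM M k r)⁻¹.trace < (MM N k r)⁻¹.trace := by
  have hfin : Set.Finite {M : Matrix V B ℕ | Mar M k r ∧ (MM M k r).det ≠ 0} := by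
    have h1 : Set.Finite (Set.Iic (fun (_ : V) (_ : B) => r)) := Set.finite_Iic _
    refine h1.subset ?_
    intro M hM
    exact fun i j => entry_le_row M k r hM.1 i j
  obtain ⟨M, hM, hmin⟩ := Set.exists_min_image _ (fun M : Matrix V B ℕ => (MM M k r)⁻¹.trace)
    hfin ⟨N, h, hd⟩
  have hopt : ∀ N1 : Matrix V B ℕ, Mar N1 k r → (MM N1 k r).det ≠ 0 →
      (MM M k r)⁻¹.trace ≤ (MM N1 k r)⁻¹.trace := fun N1 h1 h2 => hmin N1 ⟨h1, h2⟩
  refine ⟨M, hM.1, fun i j => opt_binary' M k r hM.1 hkv hbig hM.2 hopt i j, hM.2, ?_⟩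
  refine lt_of_le_of_ne (hopt N h hd) ?_
  intro heq
  obtain ⟨i, j, hij⟩ := hnb
  have := opt_binary' N k r h hkv hbig hd (fun N1 h1 h2 => by rw [← heq]; exact hopt N1 h1 h2) i j
  omega

end Pool.Agent.H856R2
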