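import Pool.Agent.H856R2.StageFour

set_option autoImplicit false

namespace Pool.Agent.H856R2
open Matrix Finset

lemma num_A0 (r k ρ τ cr : ℝ) (hk : 2 ≤ k) (hρ : ρ ≤ r) (hr : 0 < r)
    (hτ : k * τ = r * (k - 1)) (hcr : k * cr = k * r - ρ) : r * cr ≤ (2 * r - ρ) * τ := by
  have h : k * (r * cr) ≤ k * ((2 * r - ρ) * τ) := by
    have e1 : k * (r * cr) = r * (k * r - ρ) := by rw [← hcr]; ring
    have e2 : k * ((2 * r - ρ) * τ) = (2 * r - ρ) * (r * (k - 1)) := by rw [← hτ]; ring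
    rw [e1, e2]
    nlinarith [mul_nonneg hr.le (mul_nonneg (sub_nonneg.2 hρ) (show (0 : ℝ) ≤ k - 2 by linarith))]
  exact le_of_mul_le_mul_left h (by linarith)

lemma num_A1 (r ρ : ℝ) (hr : 0 < r) : ρ * (2 * r - ρ) ^ 3 ≤ 27 / 16 * r ^ 4 := by
  have h : 0 ≤ (ρ - r / 2) ^ 2 * (ρ ^ 2 - 5 * r * ρ + 27 / 4 * r ^ 2) := by
    apply mul_nonneg (sq_nonneg _)
    nlinarith [sq_nonneg (ρ - 5 / 2 * r), sq_nonneg r]
  nlinarith

lemma num_A (r k ρ τ cr : ℝ) (hk : 2 ≤ k) (hρ0 : 0 ≤ ρ) (hρ : ρ ≤ r) (hr : 0 < r)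
    (hτ : k * τ = r * (k - 1)) (hτ0 : 0 < τ) (hcr : k * cr = k * r - ρ) (hcr0 : 0 < cr) :
    ρ * cr ^ 3 ≤ 27 / 16 * r * τ ^ 3 := by
  have h0 := num_A0 r k ρ τ cr hk hρ hr hτ hcr
  have h1 : (r * cr) ^ 3 ≤ ((2 * r - ρ) * τ) ^ 3 :=
    pow_le_pow_left₀ (by positivity) h0 3
  have h2 : ρ * (r * cr) ^ 3 ≤ ρ * ((2 * r - ρ) * τ) ^ 3 := mul_le_mul_of_nonneg_left h1 hρ0
  have h3 : ρ * (2 * r - ρ) ^ 3 * τ ^ 3 ≤ 27 / 16 * r ^ 4 * τ ^ 3 :=
    mul_le_mul_of_nonneg_right (num_A1 r ρ hr) (by positivity)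
  have h4 : r ^ 3 * (ρ * cr ^ 3) ≤ r ^ 3 * (27 / 16 * r * τ ^ 3) := by
    have e1 : r ^ 3 * (ρ * cr ^ 3) = ρ * (r * cr) ^ 3 := by ring
    have e2 : ρ * ((2 * r - ρ) * τ) ^ 3 = ρ * (2 * r - ρ) ^ 3 * τ ^ 3 := by ring
    have e3 : r ^ 3 * (27 / 16 * r * τ ^ 3) = 27 / 16 * r ^ 4 * τ ^ 3 := by ring
    rw [e1, e3]; linarith
  exact le_of_mul_le_mul_left h4 (by positivity)

/-- the numerical contradiction. -/
lemma final_num (r k ρ τ cr m R G E S H : ℝ) (hr : 1000 ≤ r) (hk : 2 ≤ k) (hm : 2 ≤ m)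
    (hρ0 : 0 ≤ ρ) (hρ : ρ ≤ r) (hτ : k * τ = r * (k - 1)) (hτ0 : 0 < τ)
    (hcr : k * cr = k * r - ρ) (hcr0 : 0 < cr) (hR0 : 0 ≤ R)
    (hH : H = 9.13 * (m * (k - 1) / τ ^ 3))
    (hE : E ^ 2 ≤ G * (8.7504 * (m * (k - 1) / τ ^ 2)))
    (hG : G * (k * (k * r - ρ)) ≤ ρ * H)
    (hlow : 2 * k ≤ R * (k * r - ρ))
    (hS : m - 1 ≤ S)
    (hfin : k * ((R ^ 2 / 4) * S + E) ≤ H) : False := by
  have hr0 : 0 < r := by linarith
  have hk0 : 0 < k := by linarith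
  have hκ : k - 1 = k * τ / r := by field_simp; linarith
  -- main term
  have a1 : 2 ≤ R * cr := by
    have : k * 2 ≤ k * (R * cr) := by
      have e : k * (R * cr) = R * (k * cr) := by ring
      rw [e, hcr]; linarith
    exact le_of_mul_le_mul_left this hk0
  have a2 : 4 ≤ R ^ 2 * cr ^ 2 := by
    have : (2 : ℝ) ^ 2 ≤ (R * cr) ^ 2 := pow_le_pow_left₀ (by norm_num) a1 2
    nlinarith
  set M0 := (m - 1) / cr ^ 2 with hM0
  have hM0pos : 0 < M0 := by rw [hM0]; apply div_pos (by linarith) (by positivity)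
  have b1 : M0 ≤ R ^ 2 / 4 * S := by
    have h1 : M0 ≤ R ^ 2 / 4 * (m - 1) := by
      rw [hM0, div_le_iff₀ (by positivity)]
      nlinarith
    exact h1.trans (mul_le_mul_of_nonneg_left hS (by positivity))
  -- H / k
  have hHk : H / k = 9.13 * m / (r * τ ^ 2) := by
    rw [hH, hκ]; field_simp
  have c1 : cr ≤ 2 * τ := by
    have h0 := num_A0 r k ρ τ cr hk hρ hr0 hτ hcr
    have : r * cr ≤ r * (2 * τ) := by nlinarith [mul_nonneg hρ0 hτ0.le]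
    exact le_of_mul_le_mul_left this hr0
  have c2 : H / k ≤ 0.0731 * M0 := by
    rw [hHk, hM0, ← mul_div_assoc, div_le_div_iff₀ (by positivity) (by positivity)]
    have h1 : cr ^ 2 ≤ (2 * τ) ^ 2 := pow_le_pow_left₀ hcr0.le c1 2
    have h2 : 9.13 * m * cr ^ 2 ≤ 9.13 * m * (2 * τ) ^ 2 :=
      mul_le_mul_of_nonneg_left h1 (by positivity)
    have h3 : 9.13 * m * (2 * τ) ^ 2 ≤ 0.0731 * (m - 1) * (r * τ ^ 2) := by
      have h4 : 36.52 * m ≤ 0.0731 * (m - 1) * r := by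
        norm_num; nlinarith
      have := mul_le_mul_of_nonneg_right h4 (show (0 : ℝ) ≤ τ ^ 2 by positivity)
      norm_num at this ⊢
      linarith
    linarith
  -- error
  have d1 : G * (k ^ 2 * cr) ≤ ρ * H := by
    have e : G * (k ^ 2 * cr) = G * (k * (k * cr)) := by ring
    rw [e, hcr]; exact hG
  have d2 : G ≤ ρ * H / (k ^ 2 * cr) := by
    rw [le_div_iff₀ (by positivity)]; exact d1
  have d3 : E ^ 2 ≤ ρ * H / (k ^ 2 * cr) * (8.7504 * (m * (k - 1) / τ ^ 2)) := by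
    refine hE.trans (mul_le_mul_of_nonneg_right d2 ?_)
    have : 0 ≤ k - 1 := by linarith
    positivity
  have d4 : ρ * H / (k ^ 2 * cr) * (8.7504 * (m * (k - 1) / τ ^ 2))
      = 79.891152 * ρ * m ^ 2 / (r ^ 2 * cr * τ ^ 3) := by
    rw [hH, hκ]; field_simp; norm_num; ring
  have d5 : 79.891152 * ρ * m ^ 2 / (r ^ 2 * cr * τ ^ 3) ≤ (0.74 * M0) ^ 2 := by
    have hA := num_A r k ρ τ cr hk hρ0 hρ hr0 hτ hτ0 hcr hcr0
    have e : (0.74 * M0) ^ 2 = 0.5476 * (m - 1) ^ 2 / cr ^ 4 := by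
      rw [hM0]; field_simp; norm_num; ring
    rw [e, div_le_div_iff₀ (by positivity) (by positivity)]
    have h1 : m ^ 2 ≤ 4 * (m - 1) ^ 2 := by nlinarith
    have h2 : 79.891152 * (ρ * cr ^ 3) * m ^ 2 ≤ 79.891152 * (27 / 16 * r * τ ^ 3) * (4 * (m - 1) ^ 2) := by
      apply mul_le_mul _ h1 (by positivity) (by positivity)
      exact mul_le_mul_of_nonneg_left hA (by norm_num)
    have h3 : 79.891152 * (27 / 16 * r * τ ^ 3) * (4 * (m - 1) ^ 2)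
        ≤ 0.5476 * (m - 1) ^ 2 * (r ^ 2 * τ ^ 3) := by
      have h4 : 539.3 * r ≤ 0.5476 * r ^ 2 := by norm_num; nlinarith
      have h5 := mul_le_mul_of_nonneg_right h4
        (show (0 : ℝ) ≤ τ ^ 3 * (m - 1) ^ 2 by positivity)
      have h6 : 0 ≤ r * (τ ^ 3 * (m - 1) ^ 2) := by positivity
      norm_num at h5 ⊢
      nlinarith
    have h7 := mul_le_mul_of_nonneg_right (h2.trans h3) hcr0.le
    norm_num at h7 ⊢
    nlinarith
  have d6 : E ^ 2 ≤ (0.74 * M0) ^ 2 := by rw [d4] at d3; exact d3.trans d5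
  have d7 : |E| ≤ 0.74 * M0 := abs_le_of_sq_le_sq d6 (by positivity)
  have d8 := (abs_le.1 d7).1
  have e1 : (R ^ 2 / 4) * S + E ≤ H / k := by
    rw [le_div_iff₀ hk0]; linarith
  norm_num at c2 d8
  nlinarith

end Pool.Agent.H856R2
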