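import Pool.Agent.H856R2.StageThree

set_option autoImplicit false

namespace Pool.Agent.H856R2
open Matrix Finset

variable {V B : Type*} [Fintype V] [DecidableEq V] [Fintype B] [DecidableEq B]

namespace Ctx
variable (c : Ctx V B)

/-- `τ = r (k-1) / k`. -/
noncomputable def tau : ℝ := c.r * ((c.k : ℝ) - 1) / c.k

lemma tau_mul (hk : 2 ≤ c.k) : c.k * c.tau = c.r * ((c.k : ℝ) - 1) := by
  have hk' : (c.k : ℝ) ≠ 0 := by
    have : (2 : ℝ) ≤ c.k := by exact_mod_cast hk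
    positivity
  unfold tau; field_simp

lemma tau_ge (hr : 1000 ≤ c.r) (hk : 2 ≤ c.k) : 500 ≤ c.tau := by
  have hk2 : (2 : ℝ) ≤ c.k := by exact_mod_cast hk
  have hr2 : (1000 : ℝ) ≤ c.r := by exact_mod_cast hr
  unfold tau
  rw [le_div_iff₀ (by linarith)]
  nlinarith

lemma kap_le_tau (hk : 2 ≤ c.k) (hkr : c.k ≤ c.r) : (c.k : ℝ) - 1 ≤ c.tau := by
  have hk2 : (2 : ℝ) ≤ c.k := by exact_mod_cast hk
  have hr2 : (c.k : ℝ) ≤ c.r := by exact_mod_cast hkr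
  unfold tau
  rw [le_div_iff₀ (by linarith)]
  nlinarith

/-- the two parts of `z`. -/
def av (x : V) (y : B) : V → ℝ := cl c.n y - Pi.single x 1

lemma z_eq (x s : V) (y t : B) : c.z x s y t = c.av x y - c.av s t := by
  unfold z av du; abel

lemma av_nonneg (x : V) (y : B) (h : 1 ≤ c.n x y) (i : V) : 0 ≤ c.av x y i := by
  unfold av cl
  simp only [Pi.sub_apply, Pi.single_apply]
  split_ifs with hi
  · subst hi
    have : (1 : ℝ) ≤ c.n i y := by exact_mod_cast h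
    linarith
  · simp

lemma sum_av (x : V) (y : B) : ∑ i, c.av x y i = c.k - 1 := by
  unfold av cl
  simp only [Pi.sub_apply, Finset.sum_sub_distrib, colR]
  simp

lemma av_le (x : V) (y : B) (i : V) : c.av x y i ≤ c.n i y := by
  unfold av cl
  simp only [Pi.sub_apply, Pi.single_apply]
  split_ifs <;> simp

lemma eu_av (m : ℕ) (hm : ∀ i y, c.n i y ≤ m) (x : V) (y : B) (h : 1 ≤ c.n x y) :
    eu (c.av x y) (c.av x y) ≤ m * ((c.k : ℝ) - 1) := by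
  rw [eu_def, dotProduct, ← c.sum_av x y, Finset.mul_sum]
  refine Finset.sum_le_sum fun i _ => ?_
  apply mul_le_mul_of_nonneg_right _ (c.av_nonneg x y h i)
  refine (c.av_le x y i).trans ?_
  exact_mod_cast hm i y

lemma eu_z (m : ℕ) (hm : ∀ i y, c.n i y ≤ m) (x s : V) (y t : B) (h : 1 ≤ c.n x y)
    (h' : 1 ≤ c.n s t) :
    eu (c.z x s y t) (c.z x s y t) ≤ 2 * (m * ((c.k : ℝ) - 1)) := by
  rw [z_eq, form_sub eu eu_symm]
  have h1 := c.eu_av m hm x y h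
  have h2 := c.eu_av m hm s t h'
  have h3 : 0 ≤ eu (c.av x y) (c.av s t) := by
    rw [eu_def]
    exact Finset.sum_nonneg fun i _ => mul_nonneg (c.av_nonneg x y h i) (c.av_nonneg s t h' i)
  linarith

lemma rho_kap (x s : V) : (c.rho x s : ℝ) * (c.k - 1) ≤ c.k * c.r - c.rho x s := by
  have h : (c.rho x s : ℝ) ≤ c.r := by exact_mod_cast c.rho_le x s
  have := mul_le_mul_of_nonneg_left h (Nat.cast_nonneg (α := ℝ) c.k)
  linarith

lemma krho_pos (hr : 1 ≤ c.r) (hk : 2 ≤ c.k) (x s : V) : 0 < c.k * (c.r : ℝ) - c.rho x s := by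
  have h : (c.rho x s : ℝ) ≤ c.r := by exact_mod_cast c.rho_le x s
  have h2 : (2 : ℝ) ≤ c.k := by exact_mod_cast hk
  have h3 : (1 : ℝ) ≤ c.r := by exact_mod_cast hr
  nlinarith

lemma krho_ge (x s : V) : c.r * ((c.k : ℝ) - 1) ≤ c.k * (c.r : ℝ) - c.rho x s := by
  have h : (c.rho x s : ℝ) ≤ c.r := by exact_mod_cast c.rho_le x s
  linarith

/-- from a bound `H` on the right side for the pair to the residual. -/
lemma eta_of_H (hr : 1 ≤ c.r) (hk : 2 ≤ c.k) (x s : V) (H : ℝ) (hH0 : 0 ≤ H)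
    (hH : ∀ y t, 1 ≤ c.n x y → 1 ≤ c.n s t →
      c.R x s * c.q (c.z x s y t) (c.z x s y t) + c.A x s * c.p (c.z x s y t) (c.z x s y t) ≤ H) :
    (c.A x s - c.R x s ^ 2 / 2) * (c.k * (c.k - 1)) ≤ H := by
  rcases eq_or_ne x s with h | h
  · subst h; rw [A_self, R_self]; simpa using hH0
  · have h1 := c.star2 (by omega) x s h H hH
    have h2 := c.rho_kap x s
    have h3 := c.krho_pos hr hk x s
    have h4 : (2 : ℝ) ≤ c.k := by exact_mod_cast hk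
    have h5 : (c.A x s - c.R x s ^ 2 / 2) * (c.k * (c.k * c.r - c.rho x s)) * (c.k - 1)
        ≤ c.rho x s * H * (c.k - 1) := mul_le_mul_of_nonneg_right h1 (by linarith)
    have h6 : (c.rho x s : ℝ) * (c.k - 1) * H ≤ (c.k * c.r - c.rho x s) * H :=
      mul_le_mul_of_nonneg_right h2 hH0
    have h7 : (c.k * (c.r : ℝ) - c.rho x s) * ((c.A x s - c.R x s ^ 2 / 2) * (c.k * (c.k - 1)))
        ≤ (c.k * (c.r : ℝ) - c.rho x s) * H := by nlinarith
    exact le_of_mul_le_mul_left h7 h3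

lemma R_sq_le (x s : V) : c.R x s ^ 2 ≤ 2 * c.A x s := by
  have h := eu_nonneg (c.g x s)
  rw [eu_g] at h
  linarith

/-- Stage 3. -/
theorem stage3 (hr : 1000 ≤ c.r) (hk : 2 ≤ c.k) [Nonempty V] :
    ∃ R1 A1 : ℝ, (∀ i j, c.R i j ≤ R1) ∧ (∀ i j, c.A i j ≤ A1) ∧ 0 ≤ R1 ∧ 0 ≤ A1 ∧
      R1 * c.tau ≤ 2.02 ∧ A1 * c.tau ^ 2 ≤ 2.04 ∧
      (∀ i j, (c.A i j - c.R i j ^ 2 / 2) * (c.k * (c.k - 1)) ≤ 2 * (c.k - 1) ^ 2 * (R1 * A1)) := by
  obtain ⟨e, -, he⟩ := Finset.exists_max_image (Finset.univ : Finset (V × V))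
    (fun i => c.R i.1 i.2) Finset.univ_nonempty
  obtain ⟨f, -, hf⟩ := Finset.exists_max_image (Finset.univ : Finset (V × V))
    (fun i => c.A i.1 i.2) Finset.univ_nonempty
  set R1 := c.R e.1 e.2 with hR1
  set A1 := c.A f.1 f.2 with hA1
  have hR : ∀ i j, c.R i j ≤ R1 := fun i j => he (i, j) (Finset.mem_univ _)
  have hA : ∀ i j, c.A i j ≤ A1 := fun i j => hf (i, j) (Finset.mem_univ _)
  have hR0 : 0 ≤ R1 := c.R_nonneg _ _
  have hA0 : 0 ≤ A1 := c.A_nonneg _ _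
  have h4 : (2 : ℝ) ≤ c.k := by exact_mod_cast hk
  have hκ : (0 : ℝ) < (c.k : ℝ) - 1 := by linarith
  have hr2 : (1000 : ℝ) ≤ c.r := by exact_mod_cast hr
  have hτ := c.tau_ge hr hk
  have hτm := c.tau_mul hk
  have hH : ∀ x s y t, 1 ≤ c.n x y → 1 ≤ c.n s t →
      c.R x s * c.q (c.z x s y t) (c.z x s y t) + c.A x s * c.p (c.z x s y t) (c.z x s y t)
      ≤ 2 * (c.k - 1) ^ 2 * (R1 * A1) := by
    intro x s y t h1 h2
    have b1 : c.q (c.z x s y t) (c.z x s y t) ≤ (c.k - 1) ^ 2 * A1 := by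
      rw [z_eq]
      exact form_pair_le c.q c.qp c.qs _ _ (c.av_nonneg x y h1) (c.av_nonneg s t h2) _ hκ
        (c.sum_av x y) (c.sum_av s t) A1 hA
    have b2 : c.p (c.z x s y t) (c.z x s y t) ≤ (c.k - 1) ^ 2 * R1 := by
      rw [z_eq]
      exact form_pair_le c.p c.pp c.ps _ _ (c.av_nonneg x y h1) (c.av_nonneg s t h2) _ hκ
        (c.sum_av x y) (c.sum_av s t) R1 hR
    have b3 := mul_le_mul (hR x s) b1 (c.qp _) hR0
    have b4 := mul_le_mul (hA x s) b2 (c.pp _) hA0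
    linarith
  have hH0 : 0 ≤ 2 * ((c.k : ℝ) - 1) ^ 2 * (R1 * A1) := by positivity
  have key : A1 * c.tau * (1 - 2 * R1) ≤ R1 := by
    have s1 := c.star1 f.1 f.2 _ (hH f.1 f.2)
    rw [← hA1] at s1
    set ρ : ℝ := (c.rho f.1 f.2 : ℝ) with hρ
    have hρ0 : 0 ≤ ρ := Nat.cast_nonneg _
    have s2 : ρ * (c.k - 1) ≤ c.k * c.r - ρ := c.rho_kap f.1 f.2
    have s3 : c.r * ((c.k : ℝ) - 1) ≤ c.k * (c.r : ℝ) - ρ := c.krho_ge f.1 f.2
    have s4 : 0 < c.k * (c.r : ℝ) - ρ := c.krho_pos (by omega) hk f.1 f.2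
    have s5 : c.R f.1 f.2 ≤ R1 := hR _ _
    have hRA : 0 ≤ R1 * A1 := mul_nonneg hR0 hA0
    -- 2 ρ κ² R1 A1 ≤ 2 κ (kr-ρ) R1 A1 ≤ 2 k (kr-ρ) R1 A1
    have s6 : ρ * (2 * (c.k - 1) ^ 2 * (R1 * A1)) ≤ 2 * c.k * (c.k * c.r - ρ) * (R1 * A1) := by
      have t1 : ρ * (c.k - 1) * (2 * (c.k - 1) * (R1 * A1))
          ≤ (c.k * c.r - ρ) * (2 * (c.k - 1) * (R1 * A1)) :=
        mul_le_mul_of_nonneg_right s2 (by positivity)
      have t2 : (c.k * c.r - ρ) * (2 * (c.k - 1) * (R1 * A1))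
          ≤ (c.k * c.r - ρ) * (2 * c.k * (R1 * A1)) := by
        apply mul_le_mul_of_nonneg_left _ s4.le
        apply mul_le_mul_of_nonneg_right _ hRA
        linarith
      linarith
    have s7 : (c.k : ℝ) * (A1 * (c.k * c.r - ρ) * (1 - 2 * R1)) ≤ c.k * (c.k * R1) := by
      have t3 := mul_le_mul_of_nonneg_left s5 (show (0 : ℝ) ≤ (c.k : ℝ) ^ 2 by positivity)
      nlinarith
    have s8 : A1 * (c.k * c.r - ρ) * (1 - 2 * R1) ≤ c.k * R1 :=
      le_of_mul_le_mul_left s7 (by linarith)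
    have hR1' : R1 ≤ 0.1031 := c.stage1' hr hk _ _
    have h1R : 0 < 1 - 2 * R1 := by norm_num at hR1' ⊢; linarith
    have s9 : A1 * (c.k * c.tau) * (1 - 2 * R1) ≤ A1 * (c.k * c.r - ρ) * (1 - 2 * R1) := by
      rw [hτm]
      apply mul_le_mul_of_nonneg_right _ h1R.le
      exact mul_le_mul_of_nonneg_left s3 hA0
    have s10 : (c.k : ℝ) * (A1 * c.tau * (1 - 2 * R1)) ≤ c.k * R1 := by linarith
    exact le_of_mul_le_mul_left s10 (by linarith)
  have hRA : R1 ^ 2 ≤ 2 * A1 := (c.R_sq_le _ _).trans (by linarith [hA e.1 e.2])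
  have hR1' : R1 ≤ 0.1031 := c.stage1' hr hk _ _
  -- R1 τ (1-2R1) ≤ 2
  have key2 : R1 * c.tau * (1 - 2 * R1) ≤ 2 := by
    rcases hR0.eq_or_lt with h0 | h0
    · rw [← h0]; norm_num
    · have h1R : 0 < 1 - 2 * R1 := by norm_num at hR1' ⊢; linarith
      have t1 : R1 ^ 2 * (c.tau * (1 - 2 * R1)) ≤ 2 * A1 * (c.tau * (1 - 2 * R1)) :=
        mul_le_mul_of_nonneg_right hRA (by positivity)
      have t2 : R1 * (R1 * c.tau * (1 - 2 * R1)) ≤ R1 * 2 := by linarith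
      exact le_of_mul_le_mul_left t2 h0
  have i1 : R1 * c.tau ≤ 2.52 := by
    norm_num at hR1' ⊢
    nlinarith [mul_nonneg hR0 (show (0 : ℝ) ≤ c.tau by linarith)]
  have i2 : R1 ≤ 0.00504 := by norm_num at i1 ⊢; nlinarith
  have i3 : R1 * c.tau ≤ 2.0204 := by
    norm_num at i2 ⊢
    nlinarith [mul_nonneg hR0 (show (0 : ℝ) ≤ c.tau by linarith)]
  have i4 : R1 ≤ 0.0040408 := by norm_num at i3 ⊢; nlinarith
  have i5 : R1 * c.tau ≤ 2.0164 := by
    norm_num at i4 ⊢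
    nlinarith [mul_nonneg hR0 (show (0 : ℝ) ≤ c.tau by linarith)]
  refine ⟨R1, A1, hR, hA, hR0, hA0, i5.trans (by norm_num), ?_, ?_⟩
  · have j1 : A1 * c.tau ^ 2 * (1 - 2 * R1) ≤ 2.0164 := by
      have := mul_le_mul_of_nonneg_right key (show (0 : ℝ) ≤ c.tau by linarith)
      have e : A1 * c.tau * (1 - 2 * R1) * c.tau = A1 * c.tau ^ 2 * (1 - 2 * R1) := by ring
      linarith
    have j2 : 0 ≤ A1 * c.tau ^ 2 := by positivity
    norm_num at i4 j1 ⊢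
    nlinarith
  · intro i j
    exact c.eta_of_H (by omega) hk i j _ hH0 (hH i j)

end Ctx
end Pool.Agent.H856R2
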