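import Pool.Agent.H856R2.Ctx

set_option autoImplicit false

namespace Pool.Agent.H856R2
open Matrix Finset

variable {V B : Type*} [Fintype V] [DecidableEq V] [Fintype B] [DecidableEq B]

namespace Ctx
variable (c : Ctx V B)

/-- `R_xs` -/
noncomputable def R (x s : V) : ℝ := c.p (du x s) (du x s)
/-- `A_xs` -/
noncomputable def A (x s : V) : ℝ := c.q (du x s) (du x s)

lemma R_def (x s : V) : c.p (du x s) (du x s) = c.R x s := rfl
lemma A_def (x s : V) : c.q (du x s) (du x s) = c.A x s := rfl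

lemma R_nonneg (x s : V) : 0 ≤ c.R x s := c.pp _
lemma A_nonneg (x s : V) : 0 ≤ c.A x s := c.qp _

lemma sw (x s : V) (y t : B) (h1 : 1 ≤ c.n x y) (h2 : 1 ≤ c.n s t) :
    2 * (c.k : ℝ) * c.q (du x s) (cl c.n y - cl c.n t - du x s)
      ≤ Phi c.p c.q (du x s) (cl c.n y - cl c.n t - du x s) := c.SW x s y t h1 h2

lemma q_diff (x s : V) : c.q (du x s) (∑ y, (c.n x y : ℝ) • cl c.n y)
    - c.q (du x s) (∑ y, (c.n s y : ℝ) • cl c.n y) = c.k * (c.r * c.A x s - c.R x s) := by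
  rw [q_lam, q_lam]
  have e1 : c.A x s = c.q (du x s) (Pi.single x 1) - c.q (du x s) (Pi.single s 1) := by
    rw [← map_sub]; rfl
  have e2 : c.R x s = c.p (du x s) (Pi.single x 1) - c.p (du x s) (Pi.single s 1) := by
    rw [← map_sub]; rfl
  rw [e1, e2]; ring

/-- weighted average of `q(u, z)` -/
lemma avg_q (x s : V) : ∑ y, ∑ t, (c.n x y : ℝ) * c.n s t *
    c.q (du x s) (cl c.n y - cl c.n t - du x s)
    = c.r * (c.r * (c.k - 1) * c.A x s - c.k * c.R x s) := by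
  have h := c.q_diff x s
  simp only [map_sum, map_smul, smul_eq_mul] at h
  have e : ∀ y t, (c.n x y : ℝ) * c.n s t * c.q (du x s) (cl c.n y - cl c.n t - du x s)
      = c.n s t * (c.n x y * c.q (du x s) (cl c.n y)) - c.n x y * (c.n s t * c.q (du x s) (cl c.n t))
        - c.n x y * (c.n s t * c.A x s) := by
    intro y t
    simp only [map_sub, A]; ring
  simp only [e, Finset.sum_sub_distrib, ← Finset.mul_sum, ← Finset.sum_mul, rowR]
  linear_combination (c.r : ℝ) * h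

/-- the shifted vectors `ζ_y = N_y - k e_x` -/
noncomputable def zt (x : V) (y : B) : V → ℝ := cl c.n y - (c.k : ℝ) • Pi.single x 1

lemma z_shift (x s : V) (y t : B) : c.zt x y - c.zt s t
    = (cl c.n y - cl c.n t - du x s) + (-((c.k : ℝ) - 1)) • du x s := by
  unfold zt du
  ext i
  simp only [Pi.sub_apply, Pi.add_apply, Pi.smul_apply, smul_eq_mul]
  ring

lemma Phi_zt (x s : V) (y t : B) :
    Phi c.p c.q (du x s) (cl c.n y - cl c.n t - du x s)
      ≤ (36/25) * (c.A x s * c.p (c.zt x y) (c.zt x y)) + (36/5) * (c.A x s * c.p (c.zt s t) (c.zt s t))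
        + 12 * (c.R x s * c.q (c.zt x y) (c.zt x y)) + 12 * (c.R x s * c.q (c.zt s t) (c.zt s t)) := by
  rw [← Phi_shift c.p c.q c.ps c.qs (-((c.k : ℝ) - 1)), ← z_shift]
  have h1 := Phi_le c.p c.q c.pp c.ps c.qp c.qs (1/5) (by norm_num) (du x s) (c.zt x y - c.zt s t)
  have h2 := form_sub_le c.p c.pp c.ps (1/5) (by norm_num) (c.zt x y) (c.zt s t)
  have h3 := form_sub_le c.q c.qp c.qs 1 (by norm_num) (c.zt x y) (c.zt s t)
  have h4 := mul_le_mul_of_nonneg_left h2 (c.A_nonneg x s)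
  have h5 := mul_le_mul_of_nonneg_left h3 (c.R_nonneg x s)
  simp only [A_def, R_def] at h1
  norm_num at h1 h4 h5
  linarith

/-- `F_p(x)` -/
noncomputable def Fp (x : V) : ℝ := ∑ y, (c.n x y : ℝ) * c.p (c.zt x y) (c.zt x y)
/-- `F_q(x)` -/
noncomputable def Fq (x : V) : ℝ := ∑ y, (c.n x y : ℝ) * c.q (c.zt x y) (c.zt x y)

lemma Fp_def (x : V) : ∑ y, (c.n x y : ℝ) * c.p (c.zt x y) (c.zt x y) = c.Fp x := rfl
lemma Fq_def (x : V) : ∑ y, (c.n x y : ℝ) * c.q (c.zt x y) (c.zt x y) = c.Fq x := rfl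

lemma stage1_pair (x s : V) (hr : 0 < c.r) :
    2 * (c.k : ℝ) * (c.r * (c.k - 1) * c.A x s - c.k * c.R x s)
      ≤ (36/25) * (c.A x s * c.Fp x) + (36/5) * (c.A x s * c.Fp s)
        + 12 * (c.R x s * c.Fq x) + 12 * (c.R x s * c.Fq s) := by
  have h1 : ∑ y, ∑ t, (c.n x y : ℝ) * c.n s t *
      (2 * (c.k : ℝ) * c.q (du x s) (cl c.n y - cl c.n t - du x s))
      ≤ ∑ y, ∑ t, (c.n x y : ℝ) * c.n s t * ((36/25) * (c.A x s * c.p (c.zt x y) (c.zt x y)) + (36/5) * (c.A x s * c.p (c.zt s t) (c.zt s t))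
        + 12 * (c.R x s * c.q (c.zt x y) (c.zt x y)) + 12 * (c.R x s * c.q (c.zt s t) (c.zt s t))) := by
    refine Finset.sum_le_sum fun y _ => Finset.sum_le_sum fun t _ => ?_
    rcases Nat.eq_zero_or_pos (c.n x y) with h | h
    · simp [h]
    rcases Nat.eq_zero_or_pos (c.n s t) with h' | h'
    · simp [h']
    apply mul_le_mul_of_nonneg_left _ (by positivity)
    exact (c.sw x s y t h h').trans (c.Phi_zt x s y t)
  have h2 : ∑ y, ∑ t, (c.n x y : ℝ) * c.n s t *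
      (2 * (c.k : ℝ) * c.q (du x s) (cl c.n y - cl c.n t - du x s))
      = 2 * (c.k : ℝ) * (c.r * (c.r * (c.k - 1) * c.A x s - c.k * c.R x s)) := by
    rw [← avg_q, Finset.mul_sum]
    refine Finset.sum_congr rfl fun y _ => ?_
    rw [Finset.mul_sum]
    refine Finset.sum_congr rfl fun t _ => by ring
  have h3 : ∑ y, ∑ t, (c.n x y : ℝ) * c.n s t * ((36/25) * (c.A x s * c.p (c.zt x y) (c.zt x y)) + (36/5) * (c.A x s * c.p (c.zt s t) (c.zt s t))
        + 12 * (c.R x s * c.q (c.zt x y) (c.zt x y)) + 12 * (c.R x s * c.q (c.zt s t) (c.zt s t)))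
      = c.r * ((36/25) * (c.A x s * c.Fp x) + (36/5) * (c.A x s * c.Fp s)
        + 12 * (c.R x s * c.Fq x) + 12 * (c.R x s * c.Fq s)) := by
    have e : ∀ y t, (c.n x y : ℝ) * c.n s t * ((36/25) * (c.A x s * c.p (c.zt x y) (c.zt x y)) + (36/5) * (c.A x s * c.p (c.zt s t) (c.zt s t))
        + 12 * (c.R x s * c.q (c.zt x y) (c.zt x y)) + 12 * (c.R x s * c.q (c.zt s t) (c.zt s t)))
        = c.n s t * ((36/25) * c.A x s * (c.n x y * c.p (c.zt x y) (c.zt x y))
            + 12 * c.R x s * (c.n x y * c.q (c.zt x y) (c.zt x y)))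
          + c.n x y * ((36/5) * c.A x s * (c.n s t * c.p (c.zt s t) (c.zt s t))
            + 12 * c.R x s * (c.n s t * c.q (c.zt s t) (c.zt s t))) := by
      intro y t; ring
    simp only [e, Finset.sum_add_distrib, ← Finset.mul_sum, ← Finset.sum_mul, rowR, Fp_def, Fq_def]
    ring
  rw [h2, h3] at h1
  have hr' : (0 : ℝ) < c.r := by exact_mod_cast hr
  have h4 : (c.r : ℝ) * (2 * (c.k : ℝ) * (c.r * (c.k - 1) * c.A x s - c.k * c.R x s))
      ≤ c.r * ((36/25) * (c.A x s * c.Fp x) + (36/5) * (c.A x s * c.Fp s)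
        + 12 * (c.R x s * c.Fq x) + 12 * (c.R x s * c.Fq s)) := by
    linarith
  exact le_of_mul_le_mul_left h4 hr'

end Ctx
end Pool.Agent.H856R2
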