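import Pool.Agent.H856R2.StageOne

set_option autoImplicit false

namespace Pool.Agent.H856R2
open Matrix Finset

variable {V B : Type*} [Fintype V] [DecidableEq V] [Fintype B] [DecidableEq B]

lemma cl_eq_sum (n : V → B → ℕ) (y : B) :
    cl n y = ∑ i, (n i y : ℝ) • (Pi.single i (1 : ℝ) : V → ℝ) := by
  ext j
  simp [cl, Finset.sum_apply, Pi.single_apply]

/-- weighted Cauchy-Schwarz for scalars -/
lemma wcs {ι : Type*} (t : Finset ι) (w h : ι → ℝ) (hw : ∀ i ∈ t, 0 ≤ w i) :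
    (∑ i ∈ t, w i * h i) ^ 2 ≤ (∑ i ∈ t, w i) * ∑ i ∈ t, w i * h i ^ 2 :=
  Finset.sum_sq_le_sum_mul_sum_of_sq_le_mul t hw
    (fun i hi => mul_nonneg (hw i hi) (sq_nonneg _)) (fun i _ => le_of_eq (by ring))

namespace Ctx
variable (c : Ctx V B)

lemma p_single (f : V → ℝ) (x : V) : c.p f (Pi.single x 1) = (c.P *ᵥ f) x := by
  rw [ps, p_def, single_dotProduct, one_mul]

lemma sum_P (f : V → ℝ) : ∑ i, (c.P *ᵥ f) i = 0 := by
  have h : c.p (fun _ => 1) f = 0 := by rw [ps, p_def, P_one, dotProduct_zero]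
  rw [p_def] at h
  simpa [dotProduct] using h

lemma p_cl (f : V → ℝ) (y : B) : c.p f (cl c.n y) = ∑ i, (c.n i y : ℝ) * (c.P *ᵥ f) i := by
  rw [cl_eq_sum, map_sum]
  refine Finset.sum_congr rfl fun i _ => ?_
  rw [map_smul, smul_eq_mul, p_single]

/-- `P NNᵀ P = k (r Q - P)` -/
lemma sum_pp (f g : V → ℝ) : ∑ y, c.p f (cl c.n y) * c.p g (cl c.n y)
    = c.k * (c.r * c.q f g - c.p f g) := by
  have h1 : ∑ y, c.p f (cl c.n y) * c.p g (cl c.n y)
      = ∑ i, (c.P *ᵥ g) i * c.p f (∑ y, (c.n i y : ℝ) • cl c.n y) := by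
    have e : ∀ y, c.p f (cl c.n y) * c.p g (cl c.n y)
        = ∑ i, (c.P *ᵥ g) i * ((c.n i y : ℝ) * c.p f (cl c.n y)) := by
      intro y
      rw [c.p_cl g y, Finset.mul_sum]
      refine Finset.sum_congr rfl fun i _ => by ring
    simp only [e, map_sum, map_smul, smul_eq_mul]
    rw [Finset.sum_comm]
    simp only [Finset.mul_sum]
  rw [h1]
  simp only [p_lam, p_single]
  have e : ∀ i, (c.P *ᵥ g) i * ((c.k : ℝ) * (c.r * (c.P *ᵥ f) i - f i
      + (∑ j, f j) / (Fintype.card V : ℝ)))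
      = c.k * (c.r * ((c.P *ᵥ f) i * (c.P *ᵥ g) i) - f i * (c.P *ᵥ g) i)
        + (c.k * ((∑ j, f j) / (Fintype.card V : ℝ))) * (c.P *ᵥ g) i := by
    intro i; ring
  simp only [e, Finset.sum_add_distrib, ← Finset.mul_sum, Finset.sum_sub_distrib, sum_P, mul_zero,
    add_zero, q_def, p_def, dotProduct]

/-- the block form `D_y(f)` -/
noncomputable def D (f : V → ℝ) (y : B) : ℝ :=
  ∑ i, (c.n i y : ℝ) * f i ^ 2 - (∑ i, (c.n i y : ℝ) * f i) ^ 2 / c.k

lemma D_nonneg (hk : 0 < c.k) (f : V → ℝ) (y : B) : 0 ≤ c.D f y := by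
  have h := wcs Finset.univ (fun i => (c.n i y : ℝ)) f (fun i _ => by positivity)
  rw [c.colR] at h
  have hk' : (0 : ℝ) < c.k := by exact_mod_cast hk
  unfold D
  rw [sub_nonneg, div_le_iff₀ hk']
  linarith

lemma sum_D (hk : 0 < c.k) (g : V → ℝ) : ∑ y, c.D (c.P *ᵥ g) y = c.p g g := by
  have hk' : (c.k : ℝ) ≠ 0 := by positivity
  unfold D
  rw [Finset.sum_sub_distrib, Finset.sum_comm]
  simp only [← Finset.sum_mul, rowR, ← Finset.sum_div]
  have h := c.sum_pp g g
  simp only [← pow_two, p_cl] at h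
  rw [h, ← Finset.mul_sum, q_def, dotProduct]
  simp only [← pow_two]
  field_simp
  ring

lemma p_zt_le (x : V) (y : B) (h : 1 ≤ c.n x y) :
    c.p (c.zt x y) (c.zt x y) ≤ c.k * (c.k - 1) := by
  have hk : 0 < c.k := by
    have := c.col y
    have h2 : c.n x y ≤ ∑ i, c.n i y := Finset.single_le_sum (f := fun i => c.n i y)
      (fun _ _ => Nat.zero_le _) (Finset.mem_univ x)
    omega
  have hk' : (1 : ℝ) ≤ c.k := by exact_mod_cast hk
  set f := c.P *ᵥ (c.zt x y) with hf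
  set X := c.p (c.zt x y) (c.zt x y) with hX
  have hX0 : 0 ≤ X := c.pp _
  have e1 : X = ∑ i, (c.n i y : ℝ) * (f i - f x) := by
    have : X = c.p (c.zt x y) (cl c.n y) - c.k * c.p (c.zt x y) (Pi.single x 1) := by
      rw [hX]
      conv_lhs => rw [show c.p (c.zt x y) (c.zt x y)
        = c.p (c.zt x y) (cl c.n y - (c.k : ℝ) • Pi.single x 1) from rfl]
      rw [map_sub, map_smul, smul_eq_mul]
    rw [this, p_cl, p_single, ← hf]
    simp only [mul_sub, Finset.sum_sub_distrib, ← Finset.sum_mul, colR]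
  set T := ∑ i, (c.n i y : ℝ) * (f i - f x) ^ 2 with hT
  -- Cauchy-Schwarz with weights n_iy - δ_ix
  have h2 : X ^ 2 ≤ (c.k - 1) * T := by
    have hw : ∀ i ∈ (Finset.univ : Finset V), 0 ≤ (c.n i y : ℝ) - (if i = x then 1 else 0) := by
      intro i _
      split_ifs with hi
      · subst hi
        have : (1 : ℝ) ≤ c.n i y := by exact_mod_cast h
        linarith
      · simp
    have := wcs Finset.univ (fun i => (c.n i y : ℝ) - (if i = x then 1 else 0))
      (fun i => f i - f x) hw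
    have e2 : ∑ i, ((c.n i y : ℝ) - (if i = x then 1 else 0)) = c.k - 1 := by
      rw [Finset.sum_sub_distrib, colR]; simp
    have e3 : ∑ i, ((c.n i y : ℝ) - (if i = x then 1 else 0)) * (f i - f x) = X := by
      rw [e1]; simp [sub_mul, Finset.sum_sub_distrib, ite_mul]
    have e4 : ∑ i, ((c.n i y : ℝ) - (if i = x then 1 else 0)) * (f i - f x) ^ 2 = T := by
      rw [hT]; simp [sub_mul, Finset.sum_sub_distrib, ite_mul]
    rw [e2, e3, e4] at this
    exact this
  have h3 : c.D f y ≤ X := by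
    rw [hX, ← c.sum_D hk, ← hf]
    exact Finset.single_le_sum (f := fun y => c.D f y) (fun y _ => c.D_nonneg hk f y)
      (Finset.mem_univ y)
  have h4 : c.D f y = T - X ^ 2 / c.k := by
    have e5 : T = ∑ i, (c.n i y : ℝ) * f i ^ 2 - 2 * f x * (∑ i, (c.n i y : ℝ) * f i)
        + c.k * f x ^ 2 := by
      rw [hT, ← c.colR y, Finset.sum_mul, Finset.mul_sum, ← Finset.sum_sub_distrib,
        ← Finset.sum_add_distrib]
      refine Finset.sum_congr rfl fun i _ => by ring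
    have e6 : X = ∑ i, (c.n i y : ℝ) * f i - c.k * f x := by
      rw [e1]; simp only [mul_sub, Finset.sum_sub_distrib, ← Finset.sum_mul, colR]
    unfold D
    rw [e5, e6]
    have : (c.k : ℝ) ≠ 0 := by positivity
    field_simp
    ring
  rw [h4] at h3
  have h5 : c.k * T - X ^ 2 ≤ c.k * X := by
    have h6 := mul_le_mul_of_nonneg_left h3 (show (0 : ℝ) ≤ c.k by linarith)
    have : (c.k : ℝ) ≠ 0 := by positivity
    have e : (c.k : ℝ) * (T - X ^ 2 / c.k) = c.k * T - X ^ 2 := by field_simp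
    linarith
  have hT' : T ≤ c.k * X := by linarith
  have h7 : X * X ≤ (c.k * (c.k - 1)) * X := by
    have := mul_le_mul_of_nonneg_left hT' (show (0 : ℝ) ≤ c.k - 1 by linarith)
    nlinarith
  rcases hX0.eq_or_lt with h0 | h0
  · rw [← h0]; exact mul_nonneg (by linarith) (by linarith)
  · exact le_of_mul_le_mul_right h7 h0

lemma Fp_nonneg (x : V) : 0 ≤ c.Fp x :=
  Finset.sum_nonneg fun _ _ => mul_nonneg (Nat.cast_nonneg _) (c.pp _)
lemma Fq_nonneg (x : V) : 0 ≤ c.Fq x :=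
  Finset.sum_nonneg fun _ _ => mul_nonneg (Nat.cast_nonneg _) (c.qp _)

lemma Fp_le (x : V) : c.Fp x ≤ c.r * (c.k * (c.k - 1)) := by
  unfold Fp
  rw [← c.rowR x, Finset.sum_mul]
  refine Finset.sum_le_sum fun y _ => ?_
  rcases Nat.eq_zero_or_pos (c.n x y) with h | h
  · simp [h]
  · exact mul_le_mul_of_nonneg_left (c.p_zt_le x y h) (by positivity)

/-- general sum of `Σ_t n_st s(ζ_t, ζ_t)` over all `s` -/
lemma sum_F (s : LinearMap.BilinForm ℝ (V → ℝ)) (hs : ∀ f g, s f g = s g f) :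
    ∑ x, ∑ y, (c.n x y : ℝ) * s (c.zt x y) (c.zt x y)
    = c.k ^ 2 * c.r * ∑ x, s (Pi.single x 1) (Pi.single x 1)
      - c.k * ∑ x, s (Pi.single x 1) (∑ y, (c.n x y : ℝ) • cl c.n y) := by
  have e : ∀ x y, (c.n x y : ℝ) * s (c.zt x y) (c.zt x y)
      = c.n x y * s (cl c.n y) (cl c.n y)
        - 2 * c.k * (c.n x y * s (Pi.single x 1) (cl c.n y))
        + c.n x y * (c.k ^ 2 * s (Pi.single x 1) (Pi.single x 1)) := by
    intro x y
    unfold zt
    rw [form_sub s hs]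
    simp only [map_smul, LinearMap.smul_apply, smul_eq_mul]
    rw [hs (cl c.n y) (Pi.single x 1)]
    ring
  simp only [e, Finset.sum_add_distrib, Finset.sum_sub_distrib, ← Finset.mul_sum]
  have e1 : ∑ x, ∑ y, (c.n x y : ℝ) * s (cl c.n y) (cl c.n y)
      = c.k * ∑ y, s (cl c.n y) (cl c.n y) := by
    rw [Finset.sum_comm]
    simp only [← Finset.sum_mul, colR, Finset.mul_sum]
  have e2 : ∑ y, s (cl c.n y) (cl c.n y)
      = ∑ x, s (Pi.single x 1) (∑ y, (c.n x y : ℝ) • cl c.n y) := by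
    have : ∀ y, s (cl c.n y) (cl c.n y) = ∑ x, (c.n x y : ℝ) * s (Pi.single x 1) (cl c.n y) := by
      intro y
      conv_lhs => rw [show s (cl c.n y) (cl c.n y)
        = s (∑ i, (c.n i y : ℝ) • (Pi.single i (1 : ℝ) : V → ℝ)) (cl c.n y) from by
          rw [← cl_eq_sum]]
      simp only [map_sum, LinearMap.sum_apply, map_smul, LinearMap.smul_apply, smul_eq_mul]
    simp only [this, map_sum, map_smul, smul_eq_mul]
    rw [Finset.sum_comm]
  have e3 : ∑ x, ∑ y, (c.n x y : ℝ) * s (Pi.single x 1) (cl c.n y)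
      = ∑ x, s (Pi.single x 1) (∑ y, (c.n x y : ℝ) • cl c.n y) := by
    simp only [map_sum, map_smul, smul_eq_mul]
  rw [e1, e2, e3]
  simp only [← Finset.sum_mul, rowR, ← Finset.mul_sum]
  ring

end Ctx
end Pool.Agent.H856R2
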