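import Pool.Agent.H856R2.StageOneB

set_option autoImplicit false

namespace Pool.Agent.H856R2
open Matrix Finset

variable {V B : Type*} [Fintype V] [DecidableEq V] [Fintype B] [DecidableEq B]

namespace Ctx
variable (c : Ctx V B)

/-- diagonal of `P` -/
noncomputable def dP (x : V) : ℝ := c.p (Pi.single x 1) (Pi.single x 1)
/-- diagonal of `Q` -/
noncomputable def dQ (x : V) : ℝ := c.q (Pi.single x 1) (Pi.single x 1)

lemma dP_nonneg (x : V) : 0 ≤ c.dP x := c.pp _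
lemma dQ_nonneg (x : V) : 0 ≤ c.dQ x := c.qp _

lemma sum_Fp (hv : 0 < Fintype.card V) :
    ∑ x, c.Fp x = c.k ^ 2 * ((Fintype.card V : ℝ) - 1) := by
  have h := c.sum_F c.p c.ps
  have hv' : (Fintype.card V : ℝ) ≠ 0 := by positivity
  simp only [p_lam, Fp_def] at h
  rw [h]
  have e : ∀ x : V, (c.k : ℝ) * ((c.r : ℝ) * c.p (Pi.single x 1) (Pi.single x 1)
      - (Pi.single x (1 : ℝ) : V → ℝ) x
      + (∑ i, (Pi.single x (1 : ℝ) : V → ℝ) i) / (Fintype.card V : ℝ))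
      = c.k * c.r * c.p (Pi.single x 1) (Pi.single x 1)
        - c.k * (1 - 1 / (Fintype.card V : ℝ)) := by
    intro x; simp; ring
  simp only [e, Finset.sum_sub_distrib, ← Finset.mul_sum, Finset.sum_const, Finset.card_univ,
    nsmul_eq_mul]
  field_simp
  ring

lemma sum_Fq : ∑ x, c.Fq x = c.k ^ 2 * ∑ x, c.dP x := by
  have h := c.sum_F c.q c.qs
  simp only [q_lam, Fq_def] at h
  rw [h]
  simp only [mul_sub, Finset.sum_sub_distrib, ← Finset.mul_sum, dP]
  ring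

lemma abs_P_le (w : ℝ) (hw : 0 ≤ w) (x : V) (hx : c.dQ x ≤ w ^ 2) (i : V) :
    |(c.P *ᵥ Pi.single x 1) i| ≤ w := by
  apply abs_le_of_sq_le_sq _ hw
  refine le_trans ?_ hx
  unfold dQ
  rw [q_def, dotProduct]
  simp only [← pow_two]
  exact Finset.single_le_sum (f := fun i => ((c.P *ᵥ Pi.single x 1) i) ^ 2)
    (fun _ _ => sq_nonneg _) (Finset.mem_univ i)

lemma dP_le (w : ℝ) (hw : 0 ≤ w) (x : V) (hx : c.dQ x ≤ w ^ 2) : c.dP x ≤ w := by
  unfold dP
  rw [p_single]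
  exact (le_abs_self _).trans (c.abs_P_le w hw x hx x)

lemma R_eq (x s : V) : c.R x s = c.dP x - 2 * c.p (Pi.single x 1) (Pi.single s 1) + c.dP s := by
  unfold R du
  rw [form_sub c.p c.ps]; rfl

lemma A_eq (x s : V) : c.A x s = c.dQ x - 2 * c.q (Pi.single x 1) (Pi.single s 1) + c.dQ s := by
  unfold A du
  rw [form_sub c.q c.qs]; rfl

lemma R_le (w : ℝ) (hw : 0 ≤ w) (x s : V) (hx : c.dQ x ≤ w ^ 2) (hs : c.dQ s ≤ w ^ 2) :
    c.R x s ≤ 4 * w := by
  rw [R_eq]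
  have h1 := c.dP_le w hw x hx
  have h2 := c.dP_le w hw s hs
  have h3 := c.abs_P_le w hw x hx s
  rw [← p_single] at h3
  have := (abs_le.1 h3).1
  linarith

lemma A_le (w : ℝ) (x s : V) (hx : c.dQ x ≤ w ^ 2) (hs : c.dQ s ≤ w ^ 2) :
    c.A x s ≤ 4 * w ^ 2 := by
  have h := c.qp (Pi.single x 1 + Pi.single s 1)
  simp only [map_add, LinearMap.add_apply] at h
  rw [c.qs (Pi.single s 1) (Pi.single x 1)] at h
  rw [A_eq]
  unfold dQ at *
  linarith

/-- bound of `F_q` at the maximum of the diagonal of `Q` -/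
lemma Fq_le (x : V) (hx : ∀ j, c.dQ j ≤ c.dQ x) : c.Fq x ≤ 2 * c.k ^ 2 * c.dP x := by
  have h1 : ∀ y, c.q (c.zt x y) (c.zt x y)
      ≤ 2 * c.k * (c.k * c.dQ x - c.q (Pi.single x 1) (cl c.n y)) := by
    intro y
    have e : c.zt x y = ∑ j, (c.n j y : ℝ) • (du j x : V → ℝ) := by
      unfold zt du
      simp only [smul_sub, Finset.sum_sub_distrib, ← Finset.sum_smul, colR]
      rw [← cl_eq_sum]
    have h := form_sum_le Finset.univ c.q c.qp c.qs (fun j => (c.n j y : ℝ))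
      (fun _ _ => Nat.cast_nonneg _) (fun j => (du j x : V → ℝ))
    rw [← e, colR] at h
    refine h.trans ?_
    have h2 : ∑ j, (c.n j y : ℝ) * c.q (du j x) (du j x)
        ≤ ∑ j, (c.n j y : ℝ) * (2 * c.dQ x - 2 * c.q (Pi.single x 1) (Pi.single j 1)) := by
      refine Finset.sum_le_sum fun j _ => mul_le_mul_of_nonneg_left ?_ (Nat.cast_nonneg _)
      rw [A_def, A_eq, c.qs (Pi.single j 1)]
      linarith [hx j]
    have h3 : ∑ j, (c.n j y : ℝ) * (2 * c.dQ x - 2 * c.q (Pi.single x 1) (Pi.single j 1))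
        = 2 * (c.k * c.dQ x - c.q (Pi.single x 1) (cl c.n y)) := by
      conv_rhs => rw [cl_eq_sum]
      simp only [map_sum, map_smul, smul_eq_mul]
      rw [← c.colR y, Finset.sum_mul, ← Finset.sum_sub_distrib, Finset.mul_sum]
      refine Finset.sum_congr rfl fun i _ => by ring
    rw [h3] at h2
    have := mul_le_mul_of_nonneg_left h2 (Nat.cast_nonneg (α := ℝ) c.k)
    linarith
  have h4 : c.Fq x ≤ ∑ y, (c.n x y : ℝ) *
      (2 * c.k * (c.k * c.dQ x - c.q (Pi.single x 1) (cl c.n y))) := by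
    unfold Fq
    exact Finset.sum_le_sum fun y _ => mul_le_mul_of_nonneg_left (h1 y) (Nat.cast_nonneg _)
  refine h4.trans (le_of_eq ?_)
  have h5 := c.q_lam (Pi.single x 1) x
  simp only [map_sum, map_smul, smul_eq_mul] at h5
  have e : ∀ y, (c.n x y : ℝ) * (2 * c.k * (c.k * c.dQ x - c.q (Pi.single x 1) (cl c.n y)))
      = c.n x y * (2 * c.k * (c.k * c.dQ x))
        - 2 * c.k * (c.n x y * c.q (Pi.single x 1) (cl c.n y)) := by
    intro y; ring
  simp only [e, Finset.sum_sub_distrib, ← Finset.sum_mul, ← Finset.mul_sum, rowR, h5]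
  unfold dQ dP
  ring

lemma q_one (f : V → ℝ) : c.q f (fun _ => 1) = 0 := by
  rw [q_def, P_one, dotProduct_zero]

lemma p_one (f : V → ℝ) : c.p f (fun _ => 1) = 0 := by
  rw [p_def, P_one, dotProduct_zero]

lemma sum_single_one : ∑ s : V, (Pi.single s (1 : ℝ) : V → ℝ) = fun _ => 1 := by
  ext j; simp [Finset.sum_apply, Pi.single_apply]

lemma sum_A (x : V) : ∑ s, c.A x s = (Fintype.card V : ℝ) * c.dQ x + ∑ s, c.dQ s := by
  simp only [A_eq, Finset.sum_add_distrib, Finset.sum_sub_distrib, ← Finset.mul_sum, ← map_sum,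
    sum_single_one, q_one, Finset.sum_const, Finset.card_univ, nsmul_eq_mul]
  ring

lemma sum_R (x : V) : ∑ s, c.R x s = (Fintype.card V : ℝ) * c.dP x + ∑ s, c.dP s := by
  simp only [R_eq, Finset.sum_add_distrib, Finset.sum_sub_distrib, ← Finset.mul_sum, ← map_sum,
    sum_single_one, p_one, Finset.sum_const, Finset.card_univ, nsmul_eq_mul]
  ring


/-- Stage 1: a crude uniform bound on `R`. -/
theorem stage1 [Nonempty V] (hr : 0 < c.r) (hk : 0 < c.k) :
    ∃ w : ℝ, 0 ≤ w ∧ (∀ i j, c.R i j ≤ 4 * w) ∧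
      (0.56 * (c.r * ((c.k : ℝ) - 1)) - 124.8 * c.k) * w ≤ 4 * c.k := by
  obtain ⟨x, -, hx⟩ := Finset.exists_max_image (Finset.univ : Finset V) c.dQ
    Finset.univ_nonempty
  have hx' : ∀ j, c.dQ j ≤ c.dQ x := fun j => hx j (Finset.mem_univ j)
  set w := Real.sqrt (c.dQ x) with hw
  have hw0 : 0 ≤ w := Real.sqrt_nonneg _
  have hw2 : w ^ 2 = c.dQ x := Real.sq_sqrt (c.dQ_nonneg x)
  have hj : ∀ j, c.dQ j ≤ w ^ 2 := fun j => by rw [hw2]; exact hx' j
  have hR : ∀ i j, c.R i j ≤ 4 * w := fun i j => c.R_le w hw0 i j (hj i) (hj j)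
  refine ⟨w, hw0, hR, ?_⟩
  have hv : 0 < Fintype.card V := Fintype.card_pos
  have hv' : (0 : ℝ) < Fintype.card V := by exact_mod_cast hv
  have hk1 : (1 : ℝ) ≤ c.k := by exact_mod_cast hk
  have hr1 : (0 : ℝ) < c.r := by exact_mod_cast hr
  set v : ℝ := (Fintype.card V : ℝ) with hvdef
  -- sum of stage1_pair over s
  have h1 : ∑ s, 2 * (c.k : ℝ) * (c.r * (c.k - 1) * c.A x s - c.k * c.R x s)
      ≤ ∑ s, ((36/25) * (c.A x s * c.Fp x) + (36/5) * (c.A x s * c.Fp s)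
        + 12 * (c.R x s * c.Fq x) + 12 * (c.R x s * c.Fq s)) :=
    Finset.sum_le_sum fun s _ => c.stage1_pair x s hr
  have e1 : ∑ s, 2 * (c.k : ℝ) * (c.r * (c.k - 1) * c.A x s - c.k * c.R x s)
      = 2 * c.k * (c.r * (c.k - 1) * (∑ s, c.A x s) - c.k * ∑ s, c.R x s) := by
    simp only [← Finset.mul_sum, Finset.sum_sub_distrib]
  have e2 : ∑ s, ((36/25) * (c.A x s * c.Fp x) + (36/5) * (c.A x s * c.Fp s)
        + 12 * (c.R x s * c.Fq x) + 12 * (c.R x s * c.Fq s))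
      = (36/25) * ((∑ s, c.A x s) * c.Fp x) + (36/5) * (∑ s, c.A x s * c.Fp s)
        + 12 * ((∑ s, c.R x s) * c.Fq x) + 12 * (∑ s, c.R x s * c.Fq s) := by
    simp only [← Finset.mul_sum, ← Finset.sum_mul, Finset.sum_add_distrib]
  rw [e1, e2] at h1
  set SA := ∑ s, c.A x s with hSA
  set SR := ∑ s, c.R x s with hSR
  have hSA1 : v * w ^ 2 ≤ SA := by
    rw [hSA, sum_A, hw2]
    have : 0 ≤ ∑ s, c.dQ s := Finset.sum_nonneg fun s _ => c.dQ_nonneg s
    linarith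
  have hdP : ∀ s, c.dP s ≤ w := fun s => c.dP_le w hw0 s (hj s)
  have hsdP : ∑ s, c.dP s ≤ v * w := by
    have := Finset.sum_le_sum fun s (_ : s ∈ (Finset.univ : Finset V)) => hdP s
    simpa [Finset.sum_const, Finset.card_univ, nsmul_eq_mul] using this
  have hSR1 : SR ≤ 2 * (v * w) := by
    rw [hSR, sum_R]
    have := mul_le_mul_of_nonneg_left (hdP x) hv'.le
    linarith
  have hSR0 : 0 ≤ SR := Finset.sum_nonneg fun s _ => c.R_nonneg x s
  have hSA0 : 0 ≤ SA := Finset.sum_nonneg fun s _ => c.A_nonneg x s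
  have b1 : SA * c.Fp x ≤ SA * (c.r * (c.k * (c.k - 1))) :=
    mul_le_mul_of_nonneg_left (c.Fp_le x) hSA0
  have b2 : ∑ s, c.A x s * c.Fp s ≤ 4 * w ^ 2 * (c.k ^ 2 * v) := by
    have : ∑ s, c.A x s * c.Fp s ≤ ∑ s, 4 * w ^ 2 * c.Fp s :=
      Finset.sum_le_sum fun s _ =>
        mul_le_mul_of_nonneg_right (c.A_le w x s (hj x) (hj s)) (c.Fp_nonneg s)
    rw [← Finset.mul_sum, c.sum_Fp hv] at this
    refine this.trans ?_
    apply mul_le_mul_of_nonneg_left _ (by positivity)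
    apply mul_le_mul_of_nonneg_left _ (by positivity)
    linarith
  have b3 : SR * c.Fq x ≤ 2 * (v * w) * (2 * c.k ^ 2 * w) := by
    have h3 : c.Fq x ≤ 2 * c.k ^ 2 * w :=
      (c.Fq_le x hx').trans (mul_le_mul_of_nonneg_left (hdP x) (by positivity))
    exact mul_le_mul hSR1 h3 (c.Fq_nonneg x) (by positivity)
  have b4 : ∑ s, c.R x s * c.Fq s ≤ 4 * w * (c.k ^ 2 * (v * w)) := by
    have : ∑ s, c.R x s * c.Fq s ≤ ∑ s, 4 * w * c.Fq s :=
      Finset.sum_le_sum fun s _ => mul_le_mul_of_nonneg_right (hR x s) (c.Fq_nonneg s)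
    rw [← Finset.mul_sum, c.sum_Fq] at this
    refine this.trans ?_
    apply mul_le_mul_of_nonneg_left _ (by positivity)
    exact mul_le_mul_of_nonneg_left hsdP (by positivity)
  have h5 : 0.56 * ((c.k : ℝ) * (c.r * (c.k - 1))) * SA
      ≤ c.k ^ 2 * v * (4 * w + 124.8 * w ^ 2) := by
    have h6 : 2 * (c.k : ℝ) * (c.k * SR) ≤ 2 * c.k * (c.k * (2 * (v * w))) := by
      apply mul_le_mul_of_nonneg_left _ (by positivity)
      exact mul_le_mul_of_nonneg_left hSR1 (by positivity)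
    norm_num
    linarith
  have h6 : 0.56 * ((c.k : ℝ) * (c.r * (c.k - 1))) * (v * w ^ 2)
      ≤ c.k ^ 2 * v * (4 * w + 124.8 * w ^ 2) := by
    refine le_trans ?_ h5
    apply mul_le_mul_of_nonneg_left hSA1
    have : (0 : ℝ) ≤ c.k - 1 := by linarith
    positivity
  rcases hw0.eq_or_lt with h0 | h0
  · rw [← h0]; simp
  · have hkvw : 0 < (c.k : ℝ) * v * w := by positivity
    have h7 : (c.k * v * w) * ((0.56 * (c.r * ((c.k : ℝ) - 1)) - 124.8 * c.k) * w)
        ≤ (c.k * v * w) * (4 * c.k) := by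
      nlinarith [h6]
    exact le_of_mul_le_mul_left h7 hkvw

/-- Stage 1, numerical form. -/
theorem stage1' (hr : 1000 ≤ c.r) (hk : 2 ≤ c.k) (i j : V) : c.R i j ≤ 0.1031 := by
  have : Nonempty V := ⟨i⟩
  obtain ⟨w, hw0, hR, hw⟩ := c.stage1 (by omega) (by omega)
  have hk2 : (2 : ℝ) ≤ c.k := by exact_mod_cast hk
  have hr2 : (1000 : ℝ) ≤ c.r := by exact_mod_cast hr
  have h1 : 500 * (c.k : ℝ) ≤ c.r * (c.k - 1) := by nlinarith
  have h2 : 155.2 * (c.k : ℝ) * w ≤ 4 * c.k := by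
    refine le_trans ?_ hw
    apply mul_le_mul_of_nonneg_right _ hw0
    linarith
  have h3 : 155.2 * w ≤ 4 := by
    by_contra hcon
    push Not at hcon
    nlinarith
  have := hR i j
  norm_num at h3 ⊢
  linarith

end Ctx
end Pool.Agent.H856R2
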