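import Pool.Agent.H856R2.StageFive

set_option autoImplicit false

namespace Pool.Agent.H856R2
open Matrix Finset

variable {V B : Type*} [Fintype V] [DecidableEq V] [Fintype B] [DecidableEq B]

namespace Ctx
variable (c : Ctx V B)

/-- the improvement step. -/
lemma improve (hk : 2 ≤ c.k) (hτ0 : 0 < c.tau) (R1 A1 : ℝ) (hR : ∀ i j, c.R i j ≤ R1)
    (hA : ∀ i j, c.A i j ≤ A1) (hR0 : 0 ≤ R1) (hA0 : 0 ≤ A1) (hRτ : R1 * c.tau ≤ 2.02)
    (hAτ : A1 * c.tau ^ 2 ≤ 2.04) (m : ℕ) (hm : ∀ i y, c.n i y ≤ m)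
    (h e θ X Y : ℝ) (hh : ∀ i j, c.A i j - c.R i j ^ 2 / 2 ≤ h) (hθ : 0 < θ)
    (he : (c.k - 1) ^ 2 * h ≤ e * (m * (c.k - 1) / c.tau ^ 2))
    (hX : (1 + θ) * e + (1 + 1 / θ) * 2.0402 ≤ X) (hX0 : 0 ≤ X) (hY : 0 ≤ Y)
    (hXY : 2 * X ≤ Y ^ 2)
    (x s : V) (y t : B) (h1 : 1 ≤ c.n x y) (h2 : 1 ≤ c.n s t) :
    c.q (c.z x s y t) (c.z x s y t) ≤ X * (m * (c.k - 1) / c.tau ^ 2) ∧
    c.R x s * c.q (c.z x s y t) (c.z x s y t) + c.A x s * c.p (c.z x s y t) (c.z x s y t)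
      ≤ (2.02 * X + 2.04 * Y) * (m * (c.k - 1) / c.tau ^ 3) := by
  have h4 : (2 : ℝ) ≤ c.k := by exact_mod_cast hk
  have hκ : (0 : ℝ) < (c.k : ℝ) - 1 := by linarith
  set τ := c.tau with hτ
  set z := c.z x s y t with hz
  have hm0 : (0 : ℝ) ≤ m := Nat.cast_nonneg m
  set U : ℝ := m * ((c.k : ℝ) - 1) with hU
  have hU0 : 0 ≤ U := by positivity
  have hR1' : R1 ≤ 2.02 / τ := by rw [le_div_iff₀ hτ0]; exact hRτ
  have hA1' : A1 ≤ 2.04 / τ ^ 2 := by rw [le_div_iff₀ (by positivity)]; exact hAτ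
  have b1 := c.Pz_le R1 h θ hθ hR hh (c.av x y) (c.av s t) (c.av_nonneg x y h1)
    (c.av_nonneg s t h2) ((c.k : ℝ) - 1) hκ (c.sum_av x y) (c.sum_av s t)
  rw [← z_eq, ← hz] at b1
  have b2 : (R1 ^ 2 / 4) * (eu (c.av x y) (c.av x y) + eu (c.av s t) (c.av s t))
      ≤ 2.0402 * (U / τ ^ 2) := by
    have e1 := c.eu_av m hm x y h1
    have e2 := c.eu_av m hm s t h2
    have e3 : R1 ^ 2 ≤ (2.02 / τ) ^ 2 := pow_le_pow_left₀ hR0 hR1' 2
    have e4 : (R1 ^ 2 / 4) * (eu (c.av x y) (c.av x y) + eu (c.av s t) (c.av s t))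
        ≤ (2.02 / τ) ^ 2 / 4 * (U + U) := by
      apply mul_le_mul
      · linarith
      · linarith
      · exact add_nonneg (eu_nonneg _) (eu_nonneg _)
      · positivity
    refine e4.trans (le_of_eq ?_)
    field_simp; norm_num; ring
  have b3 : c.q z z ≤ X * (U / τ ^ 2) := by
    have t1 : (1 + θ) * ((c.k - 1) ^ 2 * h) ≤ (1 + θ) * (e * (U / τ ^ 2)) :=
      mul_le_mul_of_nonneg_left he (by linarith)
    have t2 : (1 + 1 / θ) * ((R1 ^ 2 / 4) * (eu (c.av x y) (c.av x y) + eu (c.av s t) (c.av s t)))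
        ≤ (1 + 1 / θ) * (2.0402 * (U / τ ^ 2)) :=
      mul_le_mul_of_nonneg_left b2 (by positivity)
    have t3 : ((1 + θ) * e + (1 + 1 / θ) * 2.0402) * (U / τ ^ 2) ≤ X * (U / τ ^ 2) :=
      mul_le_mul_of_nonneg_right hX (by positivity)
    linarith
  have b4 : c.p z z ≤ Y * (U / τ) := by
    apply le_of_sq_le_sq _ (by positivity)
    have t1 := c.p_sq_le z
    have t2 := c.eu_z m hm x s y t h1 h2
    rw [← hz, ← hU] at t2
    have t3 : eu z z * c.q z z ≤ (2 * U) * (X * (U / τ ^ 2)) :=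
      mul_le_mul t2 b3 (c.qp _) (by positivity)
    have t4 : (2 * U) * (X * (U / τ ^ 2)) = (2 * X) * (U / τ) ^ 2 := by field_simp
    have t5 : (2 * X) * (U / τ) ^ 2 ≤ Y ^ 2 * (U / τ) ^ 2 :=
      mul_le_mul_of_nonneg_right hXY (by positivity)
    have t6 : (Y * (U / τ)) ^ 2 = Y ^ 2 * (U / τ) ^ 2 := by ring
    linarith
  refine ⟨b3, ?_⟩
  have b5 : c.R x s * c.q z z ≤ (2.02 / τ) * (X * (U / τ ^ 2)) :=
    mul_le_mul ((hR x s).trans hR1') b3 (c.qp _) (by positivity)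
  have b6 : c.A x s * c.p z z ≤ (2.04 / τ ^ 2) * (Y * (U / τ)) :=
    mul_le_mul ((hA x s).trans hA1') b4 (c.pp _) (by positivity)
  refine (add_le_add b5 b6).trans (le_of_eq ?_)
  field_simp

/-- passing from the bound `α U/τ³` on the right side to the next residual bound. -/
lemma next_eta (hr : 1000 ≤ c.r) (hk : 2 ≤ c.k) (hτ0 : 0 < c.tau) (m : ℕ) (α : ℝ) (hα : 0 ≤ α)
    (hH : ∀ x s y t, 1 ≤ c.n x y → 1 ≤ c.n s t →
      c.R x s * c.q (c.z x s y t) (c.z x s y t) + c.A x s * c.p (c.z x s y t) (c.z x s y t)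
      ≤ α * (m * (c.k - 1) / c.tau ^ 3)) :
    (∀ i j, c.A i j - c.R i j ^ 2 / 2 ≤ α * (m * (c.k - 1) / c.tau ^ 3) / (c.k * (c.k - 1))) ∧
    (c.k - 1) ^ 2 * (α * (m * (c.k - 1) / c.tau ^ 3) / (c.k * (c.k - 1)))
      ≤ (α / 1000) * (m * (c.k - 1) / c.tau ^ 2) := by
  have h4 : (2 : ℝ) ≤ c.k := by exact_mod_cast hk
  have hκ : (0 : ℝ) < (c.k : ℝ) - 1 := by linarith
  have hr2 : (1000 : ℝ) ≤ c.r := by exact_mod_cast hr
  constructor
  · intro i j
    rw [le_div_iff₀ (by positivity)]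
    exact c.eta_of_H (by omega) hk i j _ (by positivity) (hH i j)
  · have e1 : (c.k - 1) ^ 2 * (α * (m * (c.k - 1) / c.tau ^ 3) / (c.k * (c.k - 1)))
        = α * (m * (c.k - 1) / c.tau ^ 2) * ((c.k - 1) / (c.k * c.tau)) := by
      field_simp
    rw [e1, c.tau_mul hk]
    have e2 : ((c.k : ℝ) - 1) / (c.r * (c.k - 1)) = 1 / c.r := by field_simp
    rw [e2]
    have e3 : 1 / (c.r : ℝ) ≤ 1 / 1000 := one_div_le_one_div_of_le (by norm_num) hr2
    have e4 := mul_le_mul_of_nonneg_left e3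
      (show 0 ≤ α * (m * ((c.k : ℝ) - 1) / c.tau ^ 2) by positivity)
    linarith

/-- The design is binary. -/
theorem binary (hr : 1000 ≤ c.r) (hk : 2 ≤ c.k) (hkr : c.k ≤ c.r)
    (hb : c.r ≤ Fintype.card B) (i0 : V) (y0 : B) : c.n i0 y0 ≤ 1 := by
  have hV : Nonempty V := ⟨i0⟩
  obtain ⟨f, -, hf⟩ := Finset.exists_max_image (Finset.univ : Finset (V × B))
    (fun i => c.n i.1 i.2) ⟨(i0, y0), Finset.mem_univ _⟩
  set m := c.n f.1 f.2 with hmdef
  have hm : ∀ i y, c.n i y ≤ m := fun i y => hf (i, y) (Finset.mem_univ _)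
  by_contra hcon
  have hm2 : 2 ≤ m := by have := hm i0 y0; omega
  have hm2' : (2 : ℝ) ≤ m := by exact_mod_cast hm2
  obtain ⟨R1, A1, hR, hA, hR0, hA0, hRτ, hAτ, hη⟩ := c.stage3 hr hk
  have hτ := c.tau_ge hr hk
  have hτ0 : 0 < c.tau := by linarith
  have hkt := c.kap_le_tau hk hkr
  have h4 : (2 : ℝ) ≤ c.k := by exact_mod_cast hk
  have hκ : (0 : ℝ) < (c.k : ℝ) - 1 := by linarith
  have hr2 : (1000 : ℝ) ≤ c.r := by exact_mod_cast hr
  -- stage 4
  have hh4 : ∀ i j, c.A i j - c.R i j ^ 2 / 2 ≤ 2 * (R1 * A1) := by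
    intro i j
    have h1 := hη i j
    have h2 : 2 * ((c.k : ℝ) - 1) ^ 2 * (R1 * A1) ≤ 2 * (R1 * A1) * (c.k * (c.k - 1)) := by
      have : 0 ≤ R1 * A1 := mul_nonneg hR0 hA0
      have h3 : ((c.k : ℝ) - 1) ^ 2 ≤ c.k * (c.k - 1) := by nlinarith
      nlinarith
    exact le_of_mul_le_mul_right (h1.trans h2) (by positivity)
  have he4 : ((c.k : ℝ) - 1) ^ 2 * (2 * (R1 * A1)) ≤ 4.1208 * (m * (c.k - 1) / c.tau ^ 2) := by
    have t1 : (R1 * c.tau) * (A1 * c.tau ^ 2) ≤ 2.02 * 2.04 :=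
      mul_le_mul hRτ hAτ (by positivity) (by norm_num)
    have t2 : 2 * (R1 * A1) ≤ 8.2416 / c.tau ^ 3 := by
      rw [le_div_iff₀ (by positivity)]
      norm_num at t1 ⊢
      linarith
    have t3 : ((c.k : ℝ) - 1) ^ 2 * (2 * (R1 * A1)) ≤ (c.k - 1) ^ 2 * (8.2416 / c.tau ^ 3) :=
      mul_le_mul_of_nonneg_left t2 (by positivity)
    refine t3.trans ?_
    rw [← mul_div_assoc, ← mul_div_assoc, div_le_div_iff₀ (by positivity) (by positivity)]
    have t4 : ((c.k : ℝ) - 1) * 2 ≤ c.tau * m := mul_le_mul hkt hm2' (by norm_num) hτ0.le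
    have t5 := mul_le_mul_of_nonneg_left t4
      (show 0 ≤ 4.1208 * ((c.k - 1) * c.tau ^ 2) by positivity)
    norm_num at t5 ⊢
    nlinarith
  -- stage 5
  have s5 := c.improve hk hτ0 R1 A1 hR hA hR0 hA0 hRτ hAτ m hm _ 4.1208 (7/10) 11.97 4.9 hh4
    (by norm_num) he4 (by norm_num) (by norm_num) (by norm_num) (by norm_num)
  have s5' := c.next_eta hr hk hτ0 m (2.02 * 11.97 + 2.04 * 4.9) (by norm_num)
    (fun x s y t h1 h2 => (s5 x s y t h1 h2).2)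
  have s6 := c.improve hk hτ0 R1 A1 hR hA hR0 hA0 hRτ hAτ m hm _ _ 8 2.604 2.2824 s5'.1
    (by norm_num) s5'.2 (by norm_num) (by norm_num) (by norm_num) (by norm_num)
  have s6' := c.next_eta hr hk hτ0 m (2.02 * 2.604 + 2.04 * 2.2824) (by norm_num)
    (fun x s y t h1 h2 => (s6 x s y t h1 h2).2)
  have s7 := c.improve hk hτ0 R1 A1 hR hA hR0 hA0 hRτ hAτ m hm _ _ 14 2.335 2.162 s6'.1
    (by norm_num) s6'.2 (by norm_num) (by norm_num) (by norm_num) (by norm_num)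
  have hH7 : ∀ x s y t, 1 ≤ c.n x y → 1 ≤ c.n s t →
      c.R x s * c.q (c.z x s y t) (c.z x s y t) + c.A x s * c.p (c.z x s y t) (c.z x s y t)
      ≤ 9.13 * (m * (c.k - 1) / c.tau ^ 3) := by
    intro x s y t h1 h2
    refine (s7 x s y t h1 h2).2.trans ?_
    apply mul_le_mul_of_nonneg_right (by norm_num) (by positivity)
  -- the swap
  obtain ⟨x, y⟩ := f
  simp only at hmdef
  have ht : ∃ t, c.n x t = 0 := by
    by_contra hno
    push Not at hno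
    have h1 : ∀ t, 1 ≤ c.n x t := fun t => Nat.one_le_iff_ne_zero.2 (hno t)
    have h2 : ∑ t, c.n x t = c.r := c.row x
    have h3 : ∑ t : B, 1 < ∑ t, c.n x t :=
      Finset.sum_lt_sum (fun t _ => h1 t) ⟨y, Finset.mem_univ y, by omega⟩
    simp only [Finset.sum_const, Finset.card_univ, smul_eq_mul, mul_one] at h3
    omega
  obtain ⟨t, ht⟩ := ht
  have hs : ∃ s, c.n s y < c.n s t := by
    by_contra hno
    push Not at hno
    have h1 : ∑ s, c.n s t < ∑ s, c.n s y :=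
      Finset.sum_lt_sum (fun s _ => hno s) ⟨x, Finset.mem_univ x, by omega⟩
    rw [c.col, c.col] at h1
    omega
  obtain ⟨s, hs⟩ := hs
  have hxs : x ≠ s := by
    rintro rfl; omega
  have h1 : 1 ≤ c.n x y := by omega
  have h2 : 1 ≤ c.n s t := by omega
  set z := c.z x s y t with hz
  have hS : (m : ℝ) - 1 ≤ eu (du x s) z := by
    have e : eu (du x s) z = z x - z s := by
      rw [eu_def, du, sub_dotProduct, single_dotProduct, single_dotProduct]; ring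
    rw [e, hz]
    have hs' : (c.n s y : ℝ) + 1 ≤ c.n s t := by exact_mod_cast hs
    simp only [Ctx.z, Pi.sub_apply, cl, du_apply, if_true, if_neg hxs, if_neg hxs.symm, ht, ← hmdef]
    push_cast
    linarith
  have hqz : c.q z z ≤ 2.335 * (m * (c.k - 1) / c.tau ^ 2) := (s7 x s y t h1 h2).1
  -- decomposition
  set Y : V → ℝ := c.P *ᵥ z + (c.R x s / 2) • z with hY
  have hdec : c.q (du x s) z = eu (c.g x s) Y + c.R x s ^ 2 / 4 * eu (du x s) z := by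
    have e1 : c.q (du x s) z = eu (c.P *ᵥ du x s) (c.P *ᵥ z) := by rw [q_def, eu_def]
    have e2 : eu (du x s) (c.P *ᵥ z) = eu (c.P *ᵥ du x s) z := by
      rw [eu_def, ← p_def, ps, p_def, ← eu_def, eu_symm]
    rw [e1, hY]
    unfold g
    simp only [map_add, map_sub, map_smul, LinearMap.sub_apply, LinearMap.smul_apply, smul_eq_mul]
    rw [e2]; ring
  have hEuY : eu Y Y ≤ 8.7504 * (m * (c.k - 1) / c.tau ^ 2) := by
    have h3 := form_sub_le eu eu_nonneg eu_symm 1 (by norm_num) (c.P *ᵥ z) (-((c.R x s / 2) • z))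
    rw [sub_neg_eq_add, ← hY] at h3
    have e1 : eu (c.P *ᵥ z) (c.P *ᵥ z) = c.q z z := by rw [q_def, eu_def]
    have e2 : eu (-((c.R x s / 2) • z)) (-((c.R x s / 2) • z)) = c.R x s ^ 2 / 4 * eu z z := by
      simp only [map_neg, LinearMap.neg_apply, map_smul, LinearMap.smul_apply, smul_eq_mul]; ring
    rw [e1, e2] at h3
    have h5 : c.R x s ^ 2 ≤ (2.02 / c.tau) ^ 2 := by
      apply pow_le_pow_left₀ (c.R_nonneg _ _)
      refine (hR x s).trans ?_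
      rw [le_div_iff₀ hτ0]; exact hRτ
    have h6 : c.R x s ^ 2 / 4 * eu z z ≤ (2.02 / c.tau) ^ 2 / 4 * (2 * (m * (c.k - 1))) := by
      apply mul_le_mul (by linarith) (c.eu_z m hm x s y t h1 h2) (eu_nonneg _) (by positivity)
    have h7 : (2.02 / c.tau) ^ 2 / 4 * (2 * (m * ((c.k : ℝ) - 1)))
        = 2.0402 * (m * (c.k - 1) / c.tau ^ 2) := by
      field_simp; norm_num
    rw [h7] at h6
    norm_num at h3 h6 hqz ⊢
    linarith
  have hE : (eu (c.g x s) Y) ^ 2 ≤ (c.A x s - c.R x s ^ 2 / 2)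
      * (8.7504 * (m * (c.k - 1) / c.tau ^ 2)) := by
    have h3 := form_cs eu eu_nonneg eu_symm (c.g x s) Y
    refine h3.trans ?_
    rw [← eu_g]
    exact mul_le_mul_of_nonneg_left hEuY (eu_nonneg _)
  have hG := c.star2 (by omega) x s hxs _ (hH7 x s)
  have hlow := c.star_low (by omega) x s hxs
  have hfin := (c.S_ineq x s y t h1 h2).trans (hH7 x s y t h1 h2)
  rw [← hz, hdec] at hfin
  have hρ : (c.rho x s : ℝ) ≤ c.r := by exact_mod_cast c.rho_le x s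
  have hkp := c.krho_pos (by omega) hk x s
  refine final_num c.r c.k (c.rho x s) c.tau ((c.k * c.r - c.rho x s) / c.k) m (c.R x s)
    (c.A x s - c.R x s ^ 2 / 2) (eu (c.g x s) Y) (eu (du x s) z)
    (9.13 * (m * (c.k - 1) / c.tau ^ 3)) hr2 h4 hm2' (Nat.cast_nonneg _) hρ (c.tau_mul hk) hτ0
    (by field_simp) (div_pos hkp (by linarith)) (c.R_nonneg _ _) rfl hE hG hlow hS ?_
  refine le_trans (le_of_eq ?_) hfin
  ring

end Ctx
end Pool.Agent.H856R2
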