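import Pool.Agent.H856R2.StageTwo

set_option autoImplicit false

namespace Pool.Agent.H856R2
open Matrix Finset

variable {V B : Type*} [Fintype V] [DecidableEq V] [Fintype B] [DecidableEq B]

omit [Fintype V] in
lemma du_apply (i j l : V) : du i j l = (if l = i then 1 else 0) - (if l = j then 1 else 0) := by
  simp [du, Pi.single_apply]

lemma sum_pair (a b : V → ℝ) : ∑ i : V × V, (a i.1 * b i.2) • (du i.1 i.2 : V → ℝ)
    = (∑ j, b j) • a - (∑ i, a i) • b := by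
  rw [Fintype.sum_prod_type]
  ext l
  simp only [Finset.sum_apply, Pi.smul_apply, Pi.sub_apply, smul_eq_mul, du_apply]
  have e : ∀ i j, a i * b j * ((if l = i then (1 : ℝ) else 0) - (if l = j then 1 else 0))
      = (if l = i then a i else 0) * b j - a i * (if l = j then b j else 0) := by
    intro i j; split_ifs <;> ring
  simp only [e, Finset.sum_sub_distrib, ← Finset.mul_sum, ← Finset.sum_mul, Finset.sum_ite_eq,
    Finset.mem_univ, if_true]
  ring

/-- the bound `s(a - b, a - b) ≤ κ² M`. -/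
lemma form_pair_le (s : LinearMap.BilinForm ℝ (V → ℝ)) (hp : ∀ x, 0 ≤ s x x)
    (hs : ∀ x y, s x y = s y x) (a b : V → ℝ) (ha : ∀ i, 0 ≤ a i) (hb : ∀ i, 0 ≤ b i)
    (κ : ℝ) (hκ : 0 < κ) (ea : ∑ i, a i = κ) (eb : ∑ i, b i = κ) (M : ℝ)
    (hM : ∀ i j, s (du i j) (du i j) ≤ M) : s (a - b) (a - b) ≤ κ ^ 2 * M := by
  have h := form_sum_le (Finset.univ : Finset (V × V)) s hp hs (fun i => a i.1 * b i.2)
    (fun i _ => mul_nonneg (ha _) (hb _)) (fun i => (du i.1 i.2 : V → ℝ))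
  rw [sum_pair, ea, eb] at h
  have e1 : ∑ i : V × V, a i.1 * b i.2 = κ ^ 2 := by
    rw [Fintype.sum_prod_type]
    simp only [← Finset.mul_sum, ← Finset.sum_mul, ea, eb]; ring
  rw [e1] at h
  have h2 : ∑ i : V × V, a i.1 * b i.2 * s (du i.1 i.2) (du i.1 i.2) ≤ κ ^ 2 * M := by
    rw [← e1, Finset.sum_mul]
    exact Finset.sum_le_sum fun i _ => mul_le_mul_of_nonneg_left (hM _ _)
      (mul_nonneg (ha _) (hb _))
  have h3 : s (κ • a - κ • b) (κ • a - κ • b) = κ ^ 2 * s (a - b) (a - b) := by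
    rw [← smul_sub]; simp only [map_smul, LinearMap.smul_apply, smul_eq_mul]; ring
  rw [h3] at h
  have h4 : κ ^ 2 * s (a - b) (a - b) ≤ κ ^ 2 * (κ ^ 2 * M) :=
    h.trans (mul_le_mul_of_nonneg_left h2 (by positivity))
  exact le_of_mul_le_mul_left h4 (by positivity)

/-- the Euclidean form -/
noncomputable def eu : LinearMap.BilinForm ℝ (V → ℝ) := Matrix.toBilin' 1

lemma eu_def (f g : V → ℝ) : eu f g = f ⬝ᵥ g := by
  unfold eu; rw [Matrix.toBilin'_apply', Matrix.one_mulVec]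

lemma eu_symm (f g : V → ℝ) : eu f g = eu g f := by rw [eu_def, eu_def, dotProduct_comm]
lemma eu_nonneg (f : V → ℝ) : 0 ≤ eu f f := by
  rw [eu_def]; exact Finset.sum_nonneg fun i _ => mul_self_nonneg _

/-- the pure part `W` of `κ P z`. -/
lemma W_le (R : V → V → ℝ) (R1 : ℝ) (h0 : ∀ i j, 0 ≤ R i j) (h1 : ∀ i j, R i j ≤ R1)
    (a b : V → ℝ) (ha : ∀ i, 0 ≤ a i) (hb : ∀ i, 0 ≤ b i)
    (κ : ℝ) (ea : ∑ i, a i = κ) (eb : ∑ i, b i = κ) :
    eu (∑ i : V × V, (a i.1 * b i.2) • ((R i.1 i.2 / 2) • (du i.1 i.2 : V → ℝ)))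
      (∑ i : V × V, (a i.1 * b i.2) • ((R i.1 i.2 / 2) • (du i.1 i.2 : V → ℝ)))
    ≤ κ ^ 2 * (R1 ^ 2 / 4) * (eu a a + eu b b) := by
  have e : ∀ l, (∑ i : V × V, (a i.1 * b i.2) • ((R i.1 i.2 / 2) • (du i.1 i.2 : V → ℝ))) l
      = (a l * (∑ j, b j * R l j) - b l * (∑ i, a i * R i l)) / 2 := by
    intro l
    rw [Fintype.sum_prod_type]
    simp only [Finset.sum_apply, Pi.smul_apply, smul_eq_mul, du_apply]
    have e : ∀ i j, a i * b j * (R i j / 2 * ((if l = i then (1 : ℝ) else 0) - (if l = j then 1 else 0)))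
        = (if l = i then a i * (b j * R i j) / 2 else 0)
          - (if l = j then b j * (a i * R i j) / 2 else 0) := by
      intro i j; split_ifs <;> ring
    simp only [e, Finset.sum_sub_distrib]
    rw [Finset.sum_comm (f := fun i j => if l = i then a i * (b j * R i j) / 2 else 0)]
    simp only [Finset.sum_ite_eq, Finset.mem_univ, if_true, ← Finset.mul_sum, ← Finset.sum_div]
    ring
  rw [eu_def, eu_def, eu_def, dotProduct, dotProduct, dotProduct, ← Finset.sum_add_distrib,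
    Finset.mul_sum]
  refine Finset.sum_le_sum fun l _ => ?_
  rw [e]
  have hR1 : 0 ≤ R1 := (h0 l l).trans (h1 l l)
  have hκ : 0 ≤ κ := by rw [← ea]; exact Finset.sum_nonneg fun i _ => ha i
  have u1 : 0 ≤ ∑ j, b j * R l j := Finset.sum_nonneg fun j _ => mul_nonneg (hb j) (h0 l j)
  have u2 : 0 ≤ ∑ i, a i * R i l := Finset.sum_nonneg fun j _ => mul_nonneg (ha j) (h0 j l)
  have u3 : ∑ j, b j * R l j ≤ κ * R1 := by
    rw [← eb, Finset.sum_mul]
    exact Finset.sum_le_sum fun j _ => mul_le_mul_of_nonneg_left (h1 l j) (hb j)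
  have u4 : ∑ i, a i * R i l ≤ κ * R1 := by
    rw [← ea, Finset.sum_mul]
    exact Finset.sum_le_sum fun j _ => mul_le_mul_of_nonneg_left (h1 j l) (ha j)
  set α := a l * ∑ j, b j * R l j with hα
  set β := b l * ∑ i, a i * R i l with hβ
  have v1 : 0 ≤ α := mul_nonneg (ha l) u1
  have v2 : 0 ≤ β := mul_nonneg (hb l) u2
  have v3 : α ≤ a l * (κ * R1) := mul_le_mul_of_nonneg_left u3 (ha l)
  have v4 : β ≤ b l * (κ * R1) := mul_le_mul_of_nonneg_left u4 (hb l)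
  have w1 : α ^ 2 ≤ (a l * (κ * R1)) ^ 2 := pow_le_pow_left₀ v1 v3 2
  have w2 : β ^ 2 ≤ (b l * (κ * R1)) ^ 2 := pow_le_pow_left₀ v2 v4 2
  nlinarith [mul_nonneg v1 v2]

namespace Ctx
variable (c : Ctx V B)

/-- the residual `g_ij = P u - (R/2) u`. -/
noncomputable def g (i j : V) : V → ℝ := c.P *ᵥ du i j - (c.R i j / 2) • du i j

lemma du_self (x : V) : (du x x : V → ℝ) = 0 := by simp [du]
lemma R_self (x : V) : c.R x x = 0 := by unfold R; rw [du_self]; simp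
lemma A_self (x : V) : c.A x x = 0 := by unfold A; rw [du_self]; simp

lemma eu_du (i j : V) (hij : i ≠ j) : eu (du i j) (du i j : V → ℝ) = 2 := by
  rw [eu_def, du, sub_dotProduct, single_dotProduct, single_dotProduct]
  simp [Pi.single_eq_of_ne hij, Pi.single_eq_of_ne hij.symm]
  norm_num

lemma eu_g (i j : V) : eu (c.g i j) (c.g i j) = c.A i j - c.R i j ^ 2 / 2 := by
  rcases eq_or_ne i j with h | h
  · subst h
    unfold g
    rw [du_self, R_self, A_self]; simp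
  · unfold g
    rw [form_sub eu eu_symm]
    have e1 : eu (c.P *ᵥ du i j) (c.P *ᵥ du i j) = c.A i j := by
      rw [eu_def, ← q_def]; rfl
    have e2 : eu (c.P *ᵥ du i j) ((c.R i j / 2) • du i j) = c.R i j / 2 * c.R i j := by
      rw [map_smul, smul_eq_mul, eu_symm, eu_def, ← p_def]; rfl
    have e3 : eu ((c.R i j / 2) • (du i j : V → ℝ)) ((c.R i j / 2) • du i j)
        = (c.R i j / 2) ^ 2 * 2 := by
      simp only [map_smul, LinearMap.smul_apply, smul_eq_mul]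
      rw [eu_du i j h]; ring
    rw [e1, e2, e3]; ring

/-- main vector bound on `P z`. -/
lemma Pz_le (R1 h θ : ℝ) (hθ : 0 < θ) (hR1 : ∀ i j, c.R i j ≤ R1)
    (hh : ∀ i j, c.A i j - c.R i j ^ 2 / 2 ≤ h)
    (a b : V → ℝ) (ha : ∀ i, 0 ≤ a i) (hb : ∀ i, 0 ≤ b i)
    (κ : ℝ) (hκ : 0 < κ) (ea : ∑ i, a i = κ) (eb : ∑ i, b i = κ) :
    c.q (a - b) (a - b) ≤ (1 + θ) * (κ ^ 2 * h)
      + (1 + 1 / θ) * ((R1 ^ 2 / 4) * (eu a a + eu b b)) := by
  set G : V → ℝ := ∑ i : V × V, (a i.1 * b i.2) • c.g i.1 i.2 with hG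
  set W : V → ℝ := ∑ i : V × V, (a i.1 * b i.2) • ((c.R i.1 i.2 / 2) • (du i.1 i.2 : V → ℝ))
    with hW
  have e1 : κ • (c.P *ᵥ (a - b)) = G - (-W) := by
    rw [sub_neg_eq_add, hG, hW, ← Finset.sum_add_distrib]
    have : ∀ i : V × V, (a i.1 * b i.2) • c.g i.1 i.2
        + (a i.1 * b i.2) • ((c.R i.1 i.2 / 2) • (du i.1 i.2 : V → ℝ))
        = (a i.1 * b i.2) • (c.P *ᵥ du i.1 i.2) := by
      intro i; unfold g; rw [← smul_add, sub_add_cancel]
    simp only [this]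
    have h2 : ∑ i : V × V, (a i.1 * b i.2) • (c.P *ᵥ du i.1 i.2)
        = c.P *ᵥ (∑ i : V × V, (a i.1 * b i.2) • (du i.1 i.2 : V → ℝ)) := by
      rw [Matrix.mulVec_sum]
      refine Finset.sum_congr rfl fun i _ => by rw [Matrix.mulVec_smul]
    rw [h2, sum_pair, ea, eb, ← smul_sub, Matrix.mulVec_smul]
  have h1 : eu G G ≤ κ ^ 2 * (κ ^ 2 * h) := by
    have h := form_sum_le (Finset.univ : Finset (V × V)) eu eu_nonneg eu_symm
      (fun i => a i.1 * b i.2) (fun i _ => mul_nonneg (ha _) (hb _)) (fun i => c.g i.1 i.2)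
    have e2 : ∑ i : V × V, a i.1 * b i.2 = κ ^ 2 := by
      rw [Fintype.sum_prod_type]
      simp only [← Finset.mul_sum, ← Finset.sum_mul, ea, eb]; ring
    rw [e2] at h
    refine h.trans (mul_le_mul_of_nonneg_left ?_ (by positivity))
    rw [← e2, Finset.sum_mul]
    exact Finset.sum_le_sum fun i _ => mul_le_mul_of_nonneg_left
      (by rw [eu_g]; exact hh _ _) (mul_nonneg (ha _) (hb _))
  have h2 : eu (-W) (-W) ≤ κ ^ 2 * (R1 ^ 2 / 4) * (eu a a + eu b b) := by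
    have : eu (-W) (-W) = eu W W := by simp
    rw [this]
    exact W_le c.R R1 c.R_nonneg hR1 a b ha hb κ ea eb
  have h3 := form_sub_le eu eu_nonneg eu_symm θ hθ G (-W)
  rw [← e1] at h3
  have e3 : eu (κ • (c.P *ᵥ (a - b))) (κ • (c.P *ᵥ (a - b))) = κ ^ 2 * c.q (a - b) (a - b) := by
    simp only [map_smul, LinearMap.smul_apply, smul_eq_mul]
    rw [eu_def, ← q_def]; ring
  rw [e3] at h3
  have h4 : κ ^ 2 * c.q (a - b) (a - b) ≤ κ ^ 2 * ((1 + θ) * (κ ^ 2 * h)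
      + (1 + 1 / θ) * ((R1 ^ 2 / 4) * (eu a a + eu b b))) := by
    have t1 : (0 : ℝ) ≤ 1 + θ := by linarith
    have t2 : (0 : ℝ) ≤ 1 + 1 / θ := by positivity
    have := mul_le_mul_of_nonneg_left h1 t1
    have := mul_le_mul_of_nonneg_left h2 t2
    linarith
  exact le_of_mul_le_mul_left h4 (by positivity)

/-- `p(z,z)² ≤ |z|² q(z,z)` -/
lemma p_sq_le (f : V → ℝ) : (c.p f f) ^ 2 ≤ eu f f * c.q f f := by
  have := form_cs eu eu_nonneg eu_symm f (c.P *ᵥ f)
  rw [eu_def, ← p_def] at this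
  rw [q_def, ← eu_def]
  exact this

end Ctx
end Pool.Agent.H856R2
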