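import Pool.Agent.H856R2.StageOneC

set_option autoImplicit false

namespace Pool.Agent.H856R2
open Matrix Finset

variable {V B : Type*} [Fintype V] [DecidableEq V] [Fintype B] [DecidableEq B]

namespace Ctx
variable (c : Ctx V B)

/-- the vector `z` of a swap -/
def z (x s : V) (y t : B) : V → ℝ := cl c.n y - cl c.n t - du x s

/-- `ρ_xs = Σ_y (n_xy - n_sy)⁺` -/
def rho (x s : V) : ℕ := ∑ y, (c.n x y - c.n s y)

lemma S_ineq (x s : V) (y t : B) (h1 : 1 ≤ c.n x y) (h2 : 1 ≤ c.n s t) :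
    (c.k : ℝ) * c.q (du x s) (c.z x s y t)
      ≤ c.R x s * c.q (c.z x s y t) (c.z x s y t) + c.A x s * c.p (c.z x s y t) (c.z x s y t) := by
  have h := c.sw x s y t h1 h2
  have h3 := Phi_le c.p c.q c.pp c.ps c.qp c.qs 1 (by norm_num) (du x s) (c.z x s y t)
  simp only [A_def, R_def] at h3
  change 2 * (c.k : ℝ) * c.q (du x s) (c.z x s y t) ≤ Phi c.p c.q (du x s) (c.z x s y t) at h
  norm_num at h3
  linarith

lemma rho_symm (x s : V) : c.rho x s = c.rho s x := by
  unfold rho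
  have h1 : ∀ y, (c.n x y - c.n s y) + c.n s y = (c.n s y - c.n x y) + c.n x y := by
    intro y; omega
  have h2 : ∑ y, ((c.n x y - c.n s y) + c.n s y) = ∑ y, ((c.n s y - c.n x y) + c.n x y) :=
    Finset.sum_congr rfl fun y _ => h1 y
  rw [Finset.sum_add_distrib, Finset.sum_add_distrib, c.row, c.row] at h2
  omega

lemma rho_le (x s : V) : c.rho x s ≤ c.r := by
  rw [← c.row x]
  exact Finset.sum_le_sum fun y _ => Nat.sub_le _ _

lemma rho_real (x s : V) : (c.rho x s : ℝ) = ∑ y, ((c.n x y - c.n s y : ℕ) : ℝ) := by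
  unfold rho; push_cast; rfl

lemma rho_real' (x s : V) : (c.rho x s : ℝ) = ∑ y, ((c.n s y - c.n x y : ℕ) : ℝ) := by
  rw [rho_symm, rho_real]

lemma dpm (x s : V) (y : B) : ((c.n x y - c.n s y : ℕ) : ℝ) - ((c.n s y - c.n x y : ℕ) : ℝ)
    = (c.n x y : ℝ) - c.n s y := by
  rcases le_total (c.n x y) (c.n s y) with h | h
  · rw [Nat.sub_eq_zero_of_le h, Nat.cast_sub h]; push_cast; ring
  · rw [Nat.sub_eq_zero_of_le h, Nat.cast_sub h]; push_cast; ring

lemma star1 (x s : V) (H : ℝ)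
    (hH : ∀ y t, 1 ≤ c.n x y → 1 ≤ c.n s t →
      c.R x s * c.q (c.z x s y t) (c.z x s y t) + c.A x s * c.p (c.z x s y t) (c.z x s y t) ≤ H) :
    (c.k : ℝ) ^ 2 * (c.r * c.A x s - c.R x s) - c.k * c.rho x s * c.A x s ≤ c.rho x s * H := by
  have hq := c.q_diff x s
  rcases Nat.eq_zero_or_pos (c.rho x s) with h0 | h0
  · -- equal rows
    have h1 : ∀ y, c.n x y = c.n s y := by
      intro y
      have e1 : c.n x y - c.n s y = 0 := by
        have := h0; unfold rho at this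
        exact (Finset.sum_eq_zero_iff.1 this) y (Finset.mem_univ y)
      have e2 : c.n s y - c.n x y = 0 := by
        have := h0; rw [rho_symm] at this; unfold rho at this
        exact (Finset.sum_eq_zero_iff.1 this) y (Finset.mem_univ y)
      omega
    simp only [h1, sub_self] at hq
    rw [h0]
    simp only [Nat.cast_zero, mul_zero, zero_mul, sub_zero]
    nlinarith
  · set dp : B → ℝ := fun y => ((c.n x y - c.n s y : ℕ) : ℝ) with hdp
    set dm : B → ℝ := fun y => ((c.n s y - c.n x y : ℕ) : ℝ) with hdm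
    have hρ : (0 : ℝ) < c.rho x s := by exact_mod_cast h0
    have s1 : ∑ y, dp y = c.rho x s := (c.rho_real x s).symm
    have s2 : ∑ y, dm y = c.rho x s := (c.rho_real' x s).symm
    have h1 : ∑ y, ∑ t, dp y * dm t * (c.k * c.q (du x s) (c.z x s y t))
        ≤ ∑ y, ∑ t, dp y * dm t * H := by
      refine Finset.sum_le_sum fun y _ => Finset.sum_le_sum fun t _ => ?_
      rcases Nat.eq_zero_or_pos (c.n x y - c.n s y) with h | h
      · simp [hdp, h]
      rcases Nat.eq_zero_or_pos (c.n s t - c.n x t) with h' | h'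
      · simp [hdm, h']
      apply mul_le_mul_of_nonneg_left _ (by positivity)
      have a1 : 1 ≤ c.n x y := by omega
      have a2 : 1 ≤ c.n s t := by omega
      exact (c.S_ineq x s y t a1 a2).trans (hH y t a1 a2)
    have h2 : ∑ y, ∑ t, dp y * dm t * H = c.rho x s * (c.rho x s * H) := by
      simp only [← Finset.sum_mul, ← Finset.mul_sum, s1, s2]; ring
    have h3 : ∑ y, ∑ t, dp y * dm t * (c.k * c.q (du x s) (c.z x s y t))
        = c.rho x s * ((c.k : ℝ) ^ 2 * (c.r * c.A x s - c.R x s) - c.k * c.rho x s * c.A x s) := by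
      have e : ∀ y t, dp y * dm t * (c.k * c.q (du x s) (c.z x s y t))
          = dm t * (c.k * (dp y * c.q (du x s) (cl c.n y)))
            - dp y * (c.k * (dm t * c.q (du x s) (cl c.n t)))
            - dp y * (dm t * (c.k * c.A x s)) := by
        intro y t
        simp only [z, map_sub, A]; ring
      simp only [e, Finset.sum_sub_distrib, ← Finset.mul_sum, ← Finset.sum_mul, s1, s2]
      have e2 : ∑ y, dp y * c.q (du x s) (cl c.n y) - ∑ y, dm y * c.q (du x s) (cl c.n y)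
          = c.k * (c.r * c.A x s - c.R x s) := by
        rw [← hq]
        simp only [map_sum, map_smul, smul_eq_mul, ← Finset.sum_sub_distrib]
        refine Finset.sum_congr rfl fun y _ => ?_
        rw [← sub_mul, ← sub_mul, hdp, hdm]
        simp only [c.dpm x s y]
      linear_combination (c.rho x s * c.k : ℝ) * e2
    rw [h2, h3] at h1
    exact le_of_mul_le_mul_left h1 hρ

/-- `C u` -/
noncomputable def Cu (x s : V) : V → ℝ := (c.r : ℝ) • du x s
  - (1 / (c.k : ℝ)) • ((∑ y, (c.n x y : ℝ) • cl c.n y) - ∑ y, (c.n s y : ℝ) • cl c.n y)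

lemma p_Cu (hk : 0 < c.k) (f : V → ℝ) (x s : V) : c.p f (c.Cu x s) = f x - f s := by
  have hk' : (c.k : ℝ) ≠ 0 := by positivity
  unfold Cu
  rw [map_sub, map_smul, map_smul, map_sub, p_lam, p_lam]
  unfold du
  rw [map_sub]
  simp only [smul_eq_mul]
  field_simp
  ring

lemma star_low (hk : 0 < c.k) (x s : V) (hxs : x ≠ s) :
    2 * (c.k : ℝ) ≤ c.R x s * (c.k * c.r - c.rho x s) := by
  have hk' : (0 : ℝ) < c.k := by exact_mod_cast hk
  have h1 := form_cs c.p c.pp c.ps (du x s) (c.Cu x s)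
  have e1 : c.p (du x s) (c.Cu x s) = 2 := by
    rw [c.p_Cu hk]
    unfold du
    simp only [Pi.sub_apply, Pi.single_eq_same, Pi.single_eq_of_ne hxs,
      Pi.single_eq_of_ne hxs.symm]
    norm_num
  have e2 : c.p (c.Cu x s) (c.Cu x s) = 2 * c.r - (1 / (c.k : ℝ)) * ∑ y, ((c.n x y : ℝ) - c.n s y) ^ 2 := by
    conv_lhs => rw [show c.p (c.Cu x s) (c.Cu x s) = c.p ((c.r : ℝ) • du x s
      - (1 / (c.k : ℝ)) • ((∑ y, (c.n x y : ℝ) • cl c.n y) - ∑ y, (c.n s y : ℝ) • cl c.n y))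
        (c.Cu x s) from rfl]
    simp only [map_sub, LinearMap.sub_apply, map_smul, LinearMap.smul_apply, map_sum,
      LinearMap.sum_apply, smul_eq_mul]
    rw [e1, ← Finset.sum_sub_distrib]
    simp only [c.p_Cu hk, cl]
    have : ∀ y, (c.n x y : ℝ) * ((c.n x y : ℝ) - c.n s y) - (c.n s y : ℝ) * ((c.n x y : ℝ) - c.n s y)
        = ((c.n x y : ℝ) - c.n s y) ^ 2 := by intro y; ring
    simp only [this]
    ring
  have e3 : 2 * (c.rho x s : ℝ) ≤ ∑ y, ((c.n x y : ℝ) - c.n s y) ^ 2 := by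
    have : 2 * (c.rho x s : ℝ) = ∑ y, (((c.n x y - c.n s y : ℕ) : ℝ) + ((c.n s y - c.n x y : ℕ) : ℝ)) := by
      rw [Finset.sum_add_distrib, ← rho_real, ← rho_real']; ring
    rw [this]
    refine Finset.sum_le_sum fun y _ => ?_
    rw [← dpm]
    rcases le_total (c.n x y) (c.n s y) with h | h
    · rw [Nat.sub_eq_zero_of_le h]
      have : ((c.n s y - c.n x y : ℕ) : ℝ) ≤ ((c.n s y - c.n x y : ℕ) : ℝ) ^ 2 := by
        exact_mod_cast Nat.le_self_pow (by norm_num) _
      push_cast at this ⊢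
      nlinarith
    · rw [Nat.sub_eq_zero_of_le h]
      have : ((c.n x y - c.n s y : ℕ) : ℝ) ≤ ((c.n x y - c.n s y : ℕ) : ℝ) ^ 2 := by
        exact_mod_cast Nat.le_self_pow (by norm_num) _
      push_cast at this ⊢
      nlinarith
  rw [e1, e2, R_def] at h1
  have hR := c.R_nonneg x s
  have h2 : c.R x s * (2 * c.r - (1 / (c.k : ℝ)) * ∑ y, ((c.n x y : ℝ) - c.n s y) ^ 2)
      ≤ c.R x s * (2 * c.r - (1 / (c.k : ℝ)) * (2 * c.rho x s)) := by
    apply mul_le_mul_of_nonneg_left _ hR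
    have := mul_le_mul_of_nonneg_left e3 (show (0 : ℝ) ≤ 1 / (c.k : ℝ) by positivity)
    linarith
  have h3 : (2 : ℝ) ^ 2 ≤ c.R x s * (2 * c.r - (1 / (c.k : ℝ)) * (2 * c.rho x s)) := h1.trans h2
  have h4 := mul_le_mul_of_nonneg_left h3 hk'.le
  have h5 : (c.k : ℝ) * (c.R x s * (2 * c.r - (1 / (c.k : ℝ)) * (2 * c.rho x s)))
      = 2 * (c.R x s * (c.k * c.r - c.rho x s)) := by
    field_simp
  rw [h5] at h4
  linarith

lemma star2 (hk : 0 < c.k) (x s : V) (hxs : x ≠ s) (H : ℝ)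
    (hH : ∀ y t, 1 ≤ c.n x y → 1 ≤ c.n s t →
      c.R x s * c.q (c.z x s y t) (c.z x s y t) + c.A x s * c.p (c.z x s y t) (c.z x s y t) ≤ H) :
    (c.A x s - c.R x s ^ 2 / 2) * (c.k * (c.k * c.r - c.rho x s)) ≤ c.rho x s * H := by
  have h1 := c.star1 x s H hH
  have h2 := c.star_low hk x s hxs
  have hR := c.R_nonneg x s
  have hk' : (0 : ℝ) < c.k := by exact_mod_cast hk
  have h3 : c.k * c.R x s * (2 * c.k) ≤ c.k * c.R x s * (c.R x s * (c.k * c.r - c.rho x s)) :=
    mul_le_mul_of_nonneg_left h2 (by positivity)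
  nlinarith

end Ctx
end Pool.Agent.H856R2
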